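import Pool.Agent.H55.K2.SHO
import Pool.Agent.H87.KX.UTL2
import Pool.Agent.H50.KAL.PRM

/-!
# The short step at one context

`ι` is a finite set of times with a mass `μ`, `Th` the frame, `C` a class of times and `D` a set of
bases outside the class, at bounded distance. For most pairs (base, partner in the class) the law
of the normal position at the base is nearly invariant under the displacement of the partner. Then
the first `K` rows of the block are full at all bases in `D` outside a set of mass `p₄`.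
-/

set_option autoImplicit false

namespace Pool.KX

open Finset Real
open Pool.Agent.H49.Ent Pool.Agent.H32.Dense Pool.STK Pool.KAL

section

/-- Pairs of partners of a small set of partners. -/
lemma wt2_left {Θ : Type} [Fintype Θ] {μ : Θ → ℝ} (hμ : ∀ x, 0 ≤ μ x) (hμ1 : ∑ x, μ x ≤ 1)
    (A : Θ → Prop) : wt2 μ (fun t _ => A t) ≤ wt μ A := by
  have h1 : wt2 μ (fun t _ => A t) = wt μ A * ∑ y, μ y := by
    unfold wt2 wt
    rw [Finset.sum_mul]
    refine Finset.sum_congr rfl fun x _ => ?_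
    rw [Finset.mul_sum]
    refine Finset.sum_congr rfl fun y _ => ?_
    by_cases h : A x
    · rw [ind_pos h, ind_pos h]
    · rw [ind_neg h, ind_neg h, zero_mul]
  rw [h1]
  calc wt μ A * ∑ y, μ y ≤ wt μ A * 1 := mul_le_mul_of_nonneg_left hμ1 (wt_nonneg hμ A)
    _ = wt μ A := mul_one _

/-- **The short step at one context.** -/
theorem short_thm {Ω U ι : Type} [Fintype Ω] [Fintype ι] {p : Ω → ℝ} (hp : IsLaw p)
    {μ : ι → ℝ} (hμ : ∀ x, 0 ≤ μ x) (hμ1 : ∑ x, μ x ≤ 1) (τ Th : ι → ℝ) (Nh : ι → Ω → ℤ)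
    (V : ι → Ω → U) (x : ι → ι → ℤ) (Good : ι → ι → Prop) (C D : ι → Prop)
    (α B r p₀ p₄ κ q d e : ℝ) (N K K₂ u₀ L : ℕ) (hτ : ∀ t, 0 ≤ τ t ∧ τ t ≤ 1) (hr : 0 < r)
    (hconc : ∀ c, wt μ (fun t => |τ t - c| < r) ≤ κ)
    (hC : ∀ t, C t → |2 ^ (K + 1) * Th t - α| ≤ 1)
    (hD : ∀ a, D a → 2 ≤ |2 ^ (K + 1) * Th a - α| ∧ |2 ^ (K + 1) * Th a - α| ≤ B)
    (hB : B + 2 ≤ N) (hp₀ : 0 < p₀) (hp₄ : 0 < p₄) (hCm : p₀ ≤ wt μ C)
    (hbad : ∑ a, μ a * wt μ (fun t => D a ∧ C t ∧ ¬ Good a t) ≤ q)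
    (hκ : 8 * κ * (4 * N ^ 2) ≤ p₀) (hκ' : 2 * κ < p₄)
    (hq : 128 * q * (4 * (N : ℝ) ^ 2) ^ 2 ≤ p₄ * p₀ ^ 2) (hε : 6 * (2 ^ (K + 1) / 2 ^ K₂) < r ^ 5)
    (hKK : K ≤ K₂) (hL : K₂ + u₀ + 2 ≤ L) (hd : 1 / 2 ^ u₀ ≤ |d|) (hd1 : |d| ≤ 1) (he : 0 ≤ e)
    (he2 : 18 * 4 ^ (K₂ + u₀ + 1) * e ≤ 1)
    (hx : ∀ a t, Good a t → |(x t a : ℝ) - 2 ^ L * ((τ t - τ a) * (Th t - Th a)) * d| ≤ 1)
    (hinv : ∀ a t, Good a t → TIV p (Nh a) (V a) (x t a) e) :
    wt μ (fun a => D a ∧ ¬ Full p (Nh a) (V a) K L) < p₄ := by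
  by_contra hcon
  push Not at hcon
  set g : ι → ℝ := fun t => 2 ^ (K + 1) * Th t with hg
  have hpow : (0 : ℝ) < 2 ^ (K + 1) := by positivity
  have hdsp : ∀ a t, dsp τ g a t = 2 ^ (K + 1) * ((τ t - τ a) * (Th t - Th a)) := by
    intro a t
    simp only [dsp, hg]
    ring
  refine sho_thm hμ τ g C (fun a => D a ∧ ¬ Full p (Nh a) (V a) K L) α B
    (2 ^ (K + 1) / 2 ^ K₂) r p₀ p₄ κ (2 * q) N hτ hr hconc hC (fun a ha => hD a ha.1) hB hp₀ hp₄
    hCm hcon ?_ hκ hκ' (by linarith) hε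
  -- the gap
  have h1 : ∀ a, wt2 μ (fun t t' => (D a ∧ ¬ Full p (Nh a) (V a) K L) ∧ C t ∧ C t' ∧
      2 ^ (K + 1) / 2 ^ K₂ < |dsp τ g a t - dsp τ g a t'| ∧
      |dsp τ g a t - dsp τ g a t'| ≤ 1) ≤
      2 * wt μ (fun t => D a ∧ C t ∧ ¬ Good a t) := by
    intro a
    have h2 : wt2 μ (fun t t' => (D a ∧ ¬ Full p (Nh a) (V a) K L) ∧ C t ∧ C t' ∧
        2 ^ (K + 1) / 2 ^ K₂ < |dsp τ g a t - dsp τ g a t'| ∧
        |dsp τ g a t - dsp τ g a t'| ≤ 1) ≤
        wt2 μ (fun t t' => (D a ∧ C t ∧ ¬ Good a t) ∨ (D a ∧ C t' ∧ ¬ Good a t')) := by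
      refine wt2_mono hμ ?_
      intro t t' _ _ hh
      obtain ⟨⟨hDa, hF⟩, hCt, hCt', hlo, hup⟩ := hh
      by_cases g1 : Good a t
      · by_cases g2 : Good a t'
        · exfalso
          apply hF
          have e1 : |(τ t - τ a) * (Th t - Th a) - (τ t' - τ a) * (Th t' - Th a)| =
              |dsp τ g a t - dsp τ g a t'| / 2 ^ (K + 1) := by
            rw [hdsp, hdsp, ← mul_sub, abs_mul, abs_of_pos hpow]
            field_simp
          refine full_of_pair hp (Nh a) (V a) K K₂ u₀ L _ _ d e (x t a) (x t' a) hKK hL hd hd1 he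
            he2 (hx a t g1) (hx a t' g2) (hinv a t g1) (hinv a t' g2) ?_ ?_
          · rw [e1, le_div_iff₀ hpow]
            refine le_trans (le_of_eq ?_) hlo.le
            ring
          · rw [e1]
            exact div_le_div_of_nonneg_right hup hpow.le
        · exact Or.inr ⟨hDa, hCt', g2⟩
      · exact Or.inl ⟨hDa, hCt, g1⟩
    have h3 := wt2_or hμ (fun t _ => D a ∧ C t ∧ ¬ Good a t)
      (fun _ t' => D a ∧ C t' ∧ ¬ Good a t')
    have h4 := wt2_left hμ hμ1 (fun t => D a ∧ C t ∧ ¬ Good a t)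
    have h5 : wt2 μ (fun _ t' => D a ∧ C t' ∧ ¬ Good a t') =
        wt2 μ (fun t _ => D a ∧ C t ∧ ¬ Good a t) :=
      wt2_swap μ (fun _ t' => D a ∧ C t' ∧ ¬ Good a t')
    rw [h5] at h3
    linarith
  calc ∑ a, μ a * wt2 μ (fun t t' => (D a ∧ ¬ Full p (Nh a) (V a) K L) ∧ C t ∧ C t' ∧
      2 ^ (K + 1) / 2 ^ K₂ < |dsp τ g a t - dsp τ g a t'| ∧
      |dsp τ g a t - dsp τ g a t'| ≤ 1)
      ≤ ∑ a, μ a * (2 * wt μ (fun t => D a ∧ C t ∧ ¬ Good a t)) :=
        Finset.sum_le_sum fun a _ => mul_le_mul_of_nonneg_left (h1 a) (hμ a)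
    _ = 2 * ∑ a, μ a * wt μ (fun t => D a ∧ C t ∧ ¬ Good a t) := by
        rw [Finset.mul_sum]
        exact Finset.sum_congr rfl fun a _ => by ring
    _ ≤ 2 * q := by linarith

/-- The rows of two nearby variables. -/
lemma CH_near {Ω T : Type} [Fintype Ω] {q : Ω → ℝ} (hq : IsLaw q) (X X' : Ω → ℤ) (Y : Ω → T)
    (a B : ℕ) (ha : 0 < a) (haB : a ≤ B) (h : ∀ w, X w ≤ X' w ∧ X' w < X w + a) :
    CH q (fun w => X' w / (a : ℤ)) (fun w => (X' w / (B : ℤ), Y w)) ≤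
      CH q (fun w => X w / (a : ℤ)) (fun w => (X w / (B : ℤ), Y w)) + 2 * Real.log 3 := by
  have key : ∀ (b : ℕ), 0 < b → a ≤ b → ∀ w : Ω, X' w / (b : ℤ) = X w / (b : ℤ) ∨
      X' w / (b : ℤ) = X w / (b : ℤ) + 1 := by
    intro b hb hab w
    have hbZ : (0 : ℤ) < b := by exact_mod_cast hb
    have habZ : (a : ℤ) ≤ b := by exact_mod_cast hab
    have l1 : X w / (b : ℤ) ≤ X' w / (b : ℤ) := Int.ediv_le_ediv hbZ (h w).1
    have l2 : X' w / (b : ℤ) ≤ X w / (b : ℤ) + 1 := by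
      have e1 : X w / (b : ℤ) + 1 = (X w + 1 * b) / (b : ℤ) := by
        rw [Int.add_mul_ediv_right _ _ hbZ.ne']
      rw [e1]
      exact Int.ediv_le_ediv hbZ (by linarith [(h w).2])
    omega
  have s1 := CH_le_add hq.nonneg (fun w => X' w / (a : ℤ)) (fun w => X w / (B : ℤ))
    (fun w => (X' w / (B : ℤ), Y w))
  have s2 : CH q (fun w => X w / (B : ℤ)) (fun w => (X' w / (B : ℤ), Y w)) ≤ Real.log 3 := by
    refine PRM.CH_two hq _ _ (fun t => t.1) ?_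
    intro w
    rcases key B (lt_of_lt_of_le ha haB) haB w with h1 | h1
    · left
      exact h1.symm
    · right; left
      simp only
      rw [h1]
      ring
  have s3 := CH_le_add hq.nonneg (fun w => X' w / (a : ℤ)) (fun w => X w / (a : ℤ))
    (fun w => (X w / (B : ℤ), (X' w / (B : ℤ), Y w)))
  have s4 : CH q (fun w => X w / (a : ℤ)) (fun w => (X w / (B : ℤ), (X' w / (B : ℤ), Y w)))
      ≤ CH q (fun w => X w / (a : ℤ)) (fun w => (X w / (B : ℤ), Y w)) := by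
    refine CH_mono_cond hq.nonneg ?_
    intro w w' _ _ h1
    have h2 := Prod.ext_iff.1 h1
    have h3 := Prod.ext_iff.1 h2.2
    exact Prod.ext h2.1 h3.2
  have s6 : CH q (fun w => X' w / (a : ℤ)) (fun w => (X w / (a : ℤ),
      (X w / (B : ℤ), (X' w / (B : ℤ), Y w)))) ≤ Real.log 3 := by
    refine PRM.CH_two hq _ _ (fun t => t.1) ?_
    intro w
    rcases key a ha le_rfl w with h1 | h1
    · left
      exact h1
    · right; right
      exact h1
  linarith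

/-- Removal of the smoothing: full rows of the first coordinate of the smoothed position are full
rows of the position. -/
theorem full_unsmooth {Ω U : Type} [Fintype Ω] {p : Ω → ℝ} (hp : IsLaw p) {dd N : ℕ}
    (i : Fin dd) (X : Ω → Fin dd → ℤ) (V : Ω → U) (K L : ℕ) (hN : 0 < N)
    (hNL : N ≤ 2 ^ (L - K))
    (h : Full (smp dd N p) (fun w => smX (N := N) X w i) (fun w => V w.1) K L) :
    K * Real.log 2 - 5 - 2 * Real.log 3 ≤ CH p (fun ω => X ω i / ((2 ^ (L - K) : ℕ) : ℤ))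
      (fun ω => (X ω i / ((2 ^ L : ℕ) : ℤ), V ω)) := by
  have h1 := CH_near (PRM.isLaw_smp (d := dd) hN hp) (fun w => X w.1 i)
    (fun w => smX (N := N) X w i) (fun w => V w.1) (2 ^ (L - K)) (2 ^ L) (by positivity)
    (Nat.pow_le_pow_right (by norm_num) (Nat.sub_le L K)) (by
      intro w
      simp only [smX]
      have h2 : ((w.2 i : ℕ) : ℤ) < (2 ^ (L - K) : ℕ) := by
        have := (w.2 i).2
        exact_mod_cast lt_of_lt_of_le this hNL
      have h3 : (0 : ℤ) ≤ ((w.2 i : ℕ) : ℤ) := by positivity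
      constructor
      · linarith
      · linarith)
  have h2 := PRM.CH_smp (d := dd) hN p (fun ω => X ω i / ((2 ^ (L - K) : ℕ) : ℤ))
    (fun ω => (X ω i / ((2 ^ L : ℕ) : ℤ), V ω))
  unfold Full at h
  have h3 : CH (smp dd N p) (fun w => X w.1 i / ((2 ^ (L - K) : ℕ) : ℤ))
      (fun w => (X w.1 i / ((2 ^ L : ℕ) : ℤ), V w.1)) =
      CH p (fun ω => X ω i / ((2 ^ (L - K) : ℕ) : ℤ))
        (fun ω => (X ω i / ((2 ^ L : ℕ) : ℤ), V ω)) := h2
  linarith

/-- The marginal of an invariance of the smoothed position. -/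
lemma TIV_coord {Ω U : Type} [Fintype Ω] {dd : ℕ} {p : Ω → ℝ} {X : Ω → Fin dd → ℤ} {V : Ω → U}
    {v : Fin dd → ℤ} {e : ℝ} (i : Fin dd) (h : TIV p X V v e) :
    TIV p (fun w => X w i) V (v i) e :=
  PRM.TIV_map (fun z : Fin dd → ℤ => z i) (fun _ _ => rfl) h

end

end Pool.KX
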