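import Pool.Agent.H55.K2.OWN
import Pool.Agent.H5.K2.CLU

/-!
# The short step for clusters

`V` is a context which contains the times `τ v t` of all members `t ∈ ι` of a cluster, `Th v t` is
the frame at the time of the member `t` (a function of the context), `X s` the position of the
member `s` (normal coordinate `0`, tangential coordinate `1`), `o` the velocity block. For most
values `v` of the context with an active block, the rows of the normal coordinate are full at most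
members `s` whose own class is thin and for which most members are at bounded distance.
-/

set_option autoImplicit false

namespace Pool.KX

open Finset Real
open Pool.Agent.H49.Ent Pool.Agent.H32.Dense Pool.STK Pool.KAF Pool.KAL Pool.CLU

section

/-- The uniform mass. -/
noncomputable def unif (ι : Type) [Fintype ι] : ι → ℝ := fun _ => 1 / (Fintype.card ι : ℝ)

lemma unif_nonneg {ι : Type} [Fintype ι] (t : ι) : 0 ≤ unif ι t := by
  unfold unif
  positivity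

lemma unif_sum {ι : Type} [Fintype ι] [Nonempty ι] : ∑ t, unif ι t = 1 := by
  unfold unif
  rw [Finset.sum_const, nsmul_eq_mul, Finset.card_univ]
  have : (0 : ℝ) < Fintype.card ι := by exact_mod_cast Fintype.card_pos
  field_simp

/-- **The short step for clusters.** -/
theorem csh_thm {Ω S β ι : Type} [Fintype Ω] [Fintype ι] [Nonempty ι] (p : Ω → ℝ) (o : Ω → S)
    (V : Ω → β) (X : ι → Ω → Fin 2 → ℤ) (g : ι → ι → β → S → Fin 2 → ℤ) (Bd : ι → ι → Set Ω)
    (τ Th : β → ι → ℝ) (om : β → S → ℝ) (R e ε ε' e₂ p₁ B r p₄ κ : ℝ) (N M K K₂ u₀ L : ℕ)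
    (hp : IsLaw p) (hN : 0 < N) (hR : 0 ≤ R) (hε : 0 < ε) (hε' : 0 < ε') (hp₁ : 0 < p₁)
    (hMI : ∀ s, Pool.KVA.MI p o (X s) V ≤ e)
    (hX : ∀ t s ω, ω ∉ Bd t s → ∀ i, |((X s ω i - X t ω i - g t s (V ω) (o ω) i : ℤ) : ℝ)| ≤ R)
    (hg : ∀ v t s a a', |(((g t s v a - g t s v a') 0 : ℤ) : ℝ) -
      2 ^ L * ((τ v t - τ v s) * (Th v t - Th v s)) * (om v a - om v a')| ≤ 1)
    (he₂ : 2 * ((2 * Real.sqrt ε + ε') / p₁) + 2 * ((2 : ℕ) * R / N) ≤ e₂)
    (hr : 0 < r) (hB : B + 2 ≤ M) (hp₄ : 0 < p₄) (hκ : 8 * κ * (4 * M ^ 2) ≤ 3 / 4)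
    (hκ' : 16 * M * κ < p₄) (hε₂ : 6 * (2 ^ (K + 1) / 2 ^ K₂) < r ^ 5) (hKK : K ≤ K₂)
    (hL : K₂ + u₀ + 2 ≤ L) (hNL : N ≤ 2 ^ (L - K)) (he : 18 * 4 ^ (K₂ + u₀ + 1) * e₂ ≤ 1) :
    ∃ G : Set β, (∀ v ∈ G, 0 < law p V v) ∧
      Pr p {ω | V ω ∉ G} ≤ Fintype.card ι * e / ε + (∑ t, ∑ s, Pr p (Bd t s)) / ε' ∧
      ∀ v ∈ G, (∃ a a', p₁ ≤ law (cond p V v) o a ∧ p₁ ≤ law (cond p V v) o a' ∧
          1 / 2 ^ u₀ ≤ |om v a - om v a'| ∧ |om v a - om v a'| ≤ 1) →
        (∀ t, 0 ≤ τ v t ∧ τ v t ≤ 1) →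
        (∀ c, wt (unif ι) (fun t => |τ v t - c| < r) ≤ κ) →
        wt (unif ι) (fun s =>
          (wt (unif ι) (fun t => 2 ^ (K + 1) * |Th v t - Th v s| < 2) ≤ 1 / 8 ∧
            wt (unif ι) (fun t => B < 2 ^ (K + 1) * |Th v t - Th v s|) ≤ 1 / 8) ∧
          CH (cond p V v) (fun ω => X s ω 0 / ((2 ^ (L - K) : ℕ) : ℤ))
            (fun ω => (X s ω 0 / ((2 ^ L : ℕ) : ℤ), ())) <
              K * Real.log 2 - 5 - 2 * Real.log 3) < p₄ := by
  obtain ⟨G, hG0, hG1, hG2⟩ := clu3_thm 2 N Ω S β ι p o V X g Bd R e ε ε' hp hN hR hε hε' hMI hX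
  refine ⟨G, hG0, hG1, ?_⟩
  intro v hv hact hτ hconc
  obtain ⟨a, a', ha, ha', hd, hd1⟩ := hact
  have hN0 : (0 : ℝ) < N := by exact_mod_cast hN
  have hcl : IsLaw (cond p V v) := cond_law hp V (hG0 v hv)
  have hsm := PRM.isLaw_smp (d := 2) hN hcl
  have he₂0 : 0 ≤ e₂ := by
    refine le_trans ?_ he₂
    positivity
  -- the invariances
  have hTIV : ∀ t s, TIV (smp 2 N (cond p V v)) (fun w => smX (N := N) (X s) w 0)
      (fun _ => ()) ((g t s v a - g t s v a') 0) e₂ := by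
    intro t s E
    have h1 := TIV_coord 0 (hG2 v hv t s a a' (lt_of_lt_of_le hp₁ ha) (lt_of_lt_of_le hp₁ ha')) E
    refine h1.trans (le_trans ?_ he₂)
    have hnum : 0 ≤ 2 * Real.sqrt ε + ε' := by positivity
    have e1 : (2 * Real.sqrt ε + ε') / law (cond p V v) o a ≤ (2 * Real.sqrt ε + ε') / p₁ :=
      div_le_div_of_nonneg_left hnum hp₁ ha
    have e2 : (2 * Real.sqrt ε + ε') / law (cond p V v) o a' ≤ (2 * Real.sqrt ε + ε') / p₁ :=
      div_le_div_of_nonneg_left hnum hp₁ ha'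
    linarith
  have key := short_own_thm hsm unif_nonneg unif_sum (τ v) (Th v)
    (fun s w => smX (N := N) (X s) w 0) (fun _ _ => ())
    (fun t s => (g t s v a - g t s v a') 0) (fun _ _ => True)
    (fun s => wt (unif ι) (fun t => 2 ^ (K + 1) * |Th v t - Th v s| < 2) ≤ 1 / 8 ∧
            wt (unif ι) (fun t => B < 2 ^ (K + 1) * |Th v t - Th v s|) ≤ 1 / 8)
    B r p₄ κ 0 (om v a - om v a') e₂ M K K₂ u₀ L hτ hr hconc (fun s hs => hs.1)
    (fun s hs => hs.2) hB hp₄ (by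
      apply le_of_eq
      refine Finset.sum_eq_zero fun s _ => ?_
      have : wt (unif ι) (fun t => (wt (unif ι) (fun t => 2 ^ (K + 1) * |Th v t - Th v s| < 2) ≤
          1 / 8 ∧ wt (unif ι) (fun t => B < 2 ^ (K + 1) * |Th v t - Th v s|) ≤ 1 / 8) ∧
          ¬ True) = 0 := Finset.sum_eq_zero fun t _ => ind_neg (by tauto) _
      rw [this, mul_zero]) hκ hκ' (by
      rw [mul_zero, zero_mul]
      exact hp₄.le) hε₂ hKK hL hd hd1 he₂0 he (fun s t _ => hg v t s a a')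
    (fun s t _ => hTIV t s)
  refine lt_of_le_of_lt (wt_mono unif_nonneg ?_) key
  intro s hs
  refine ⟨hs.1, fun hF => ?_⟩
  have h1 := full_unsmooth hcl (0 : Fin 2) (X s) (fun _ => ()) K L hN hNL hF
  linarith [hs.2]

end

end Pool.KX
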