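import Pool.Agent.H55.K2.CSH

/-!
# Clusters: both coordinates

`ATI` collects the invariances at one active value of the context of a cluster. From it: the rows
of the normal coordinate at most members with a thin own class (`ati_short`), and the rows of the
tangential coordinate, given the normal coordinate, at all members whose own class contains a
member which is not too close (`ati_tan`).
-/

set_option autoImplicit false

namespace Pool.KX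

open Finset Real
open Pool.Agent.H49.Ent Pool.Agent.H32.Dense Pool.STK Pool.KAF Pool.KAL Pool.KAL.TI Pool.CLU

section

variable {Ω ι : Type} [Fintype Ω] [Fintype ι]

/-- The invariances at one active value of the context: the law `p` of the lines, the positions
`X s`, the times `τ`, the frames `Th`, the difference `d` of two values of the velocity block. The
smoothed position of the member `s` is nearly invariant under a translation with the coordinates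
`2 ^ L (τ t - τ s) (Th t - Th s) d` and `± 2 ^ L₁ (τ t - τ s) d`, up to one unit. -/
def ATI (p : Ω → ℝ) (X : ι → Ω → Fin 2 → ℤ) (τ Th : ι → ℝ) (N L L₁ : ℕ) (d e : ℝ) : Prop :=
  ∃ x : ι → ι → Fin 2 → ℤ, ∀ t s,
    |(x t s 0 : ℝ) - 2 ^ L * ((τ t - τ s) * (Th t - Th s)) * d| ≤ 1 ∧
    abs (((|x t s 1| : ℤ) : ℝ) - 2 ^ L₁ * |τ t - τ s| * |d|) ≤ 1 ∧
    TIV (smp 2 N p) (smX (N := N) (X s)) (fun _ => ()) (x t s) e

/-- Most values of the context have the invariances. -/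
theorem ctx_ati {S β : Type} (p : Ω → ℝ) (o : Ω → S)
    (V : Ω → β) (X : ι → Ω → Fin 2 → ℤ) (g : ι → ι → β → S → Fin 2 → ℤ) (Bd : ι → ι → Set Ω)
    (τ Th : β → ι → ℝ) (om : β → S → ℝ) (R e ε ε' e₂ p₁ : ℝ) (N L L₁ : ℕ)
    (hp : IsLaw p) (hN : 0 < N) (hR : 0 ≤ R) (hε : 0 < ε) (hε' : 0 < ε') (hp₁ : 0 < p₁)
    (hMI : ∀ s, Pool.KVA.MI p o (X s) V ≤ e)
    (hX : ∀ t s ω, ω ∉ Bd t s → ∀ i, |((X s ω i - X t ω i - g t s (V ω) (o ω) i : ℤ) : ℝ)| ≤ R)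
    (hg : ∀ v t s a a', |(((g t s v a - g t s v a') 0 : ℤ) : ℝ) -
      2 ^ L * ((τ v t - τ v s) * (Th v t - Th v s)) * (om v a - om v a')| ≤ 1)
    (hg₁ : ∀ v t s a a', abs (((|(g t s v a - g t s v a') 1| : ℤ) : ℝ) -
      2 ^ L₁ * |τ v t - τ v s| * |om v a - om v a'|) ≤ 1)
    (he₂ : 2 * ((2 * Real.sqrt ε + ε') / p₁) + 2 * ((2 : ℕ) * R / N) ≤ e₂) :
    ∃ G : Set β, (∀ v ∈ G, 0 < law p V v) ∧
      Pr p {ω | V ω ∉ G} ≤ Fintype.card ι * e / ε + (∑ t, ∑ s, Pr p (Bd t s)) / ε' ∧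
      ∀ v ∈ G, ∀ a a', p₁ ≤ law (cond p V v) o a → p₁ ≤ law (cond p V v) o a' →
        ATI (cond p V v) X (τ v) (Th v) N L L₁ (om v a - om v a') e₂ := by
  obtain ⟨G, hG0, hG1, hG2⟩ := clu3_thm 2 N Ω S β ι p o V X g Bd R e ε ε' hp hN hR hε hε' hMI hX
  refine ⟨G, hG0, hG1, ?_⟩
  intro v hv a a' ha ha'
  refine ⟨fun t s => g t s v a - g t s v a', ?_⟩
  intro t s
  refine ⟨hg v t s a a', hg₁ v t s a a', ?_⟩
  intro E
  have h1 := hG2 v hv t s a a' (lt_of_lt_of_le hp₁ ha) (lt_of_lt_of_le hp₁ ha') E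
  refine h1.trans (le_trans ?_ he₂)
  have hnum : 0 ≤ 2 * Real.sqrt ε + ε' := by positivity
  have e1 : (2 * Real.sqrt ε + ε') / law (cond p V v) o a ≤ (2 * Real.sqrt ε + ε') / p₁ :=
    div_le_div_of_nonneg_left hnum hp₁ ha
  have e2 : (2 * Real.sqrt ε + ε') / law (cond p V v) o a' ≤ (2 * Real.sqrt ε + ε') / p₁ :=
    div_le_div_of_nonneg_left hnum hp₁ ha'
  linarith

/-- **The normal coordinate.** -/
theorem ati_short [Nonempty ι] {p : Ω → ℝ} (hp : IsLaw p) {X : ι → Ω → Fin 2 → ℤ}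
    {τ Th : ι → ℝ} {N L L₁ : ℕ} {d e₂ : ℝ} (h : ATI p X τ Th N L L₁ d e₂)
    (B r p₄ κ : ℝ) (M K K₂ u₀ : ℕ) (hN : 0 < N) (hd : 1 / 2 ^ u₀ ≤ |d|) (hd1 : |d| ≤ 1)
    (he₂0 : 0 ≤ e₂) (hr : 0 < r) (hB : B + 2 ≤ M) (hp₄ : 0 < p₄)
    (hκ : 8 * κ * (4 * M ^ 2) ≤ 3 / 4)
    (hκ' : 16 * M * κ < p₄) (hε₂ : 6 * (2 ^ (K + 1) / 2 ^ K₂) < r ^ 5) (hKK : K ≤ K₂)
    (hL : K₂ + u₀ + 2 ≤ L) (hNL : N ≤ 2 ^ (L - K)) (he : 18 * 4 ^ (K₂ + u₀ + 1) * e₂ ≤ 1)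
    (hτ : ∀ t, 0 ≤ τ t ∧ τ t ≤ 1) (hconc : ∀ c, wt (unif ι) (fun t => |τ t - c| < r) ≤ κ) :
    wt (unif ι) (fun s =>
      (wt (unif ι) (fun t => 2 ^ (K + 1) * |Th t - Th s| < 2) ≤ 1 / 8 ∧
        wt (unif ι) (fun t => B < 2 ^ (K + 1) * |Th t - Th s|) ≤ 1 / 8) ∧
      CH p (fun ω => X s ω 0 / ((2 ^ (L - K) : ℕ) : ℤ))
        (fun ω => (X s ω 0 / ((2 ^ L : ℕ) : ℤ), ())) <
          K * Real.log 2 - 5 - 2 * Real.log 3) < p₄ := by
  obtain ⟨x, hx⟩ := h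
  have hsm := PRM.isLaw_smp (d := 2) hN hp
  have key := short_own_thm hsm unif_nonneg unif_sum τ Th
    (fun s w => smX (N := N) (X s) w 0) (fun _ _ => ())
    (fun t s => x t s 0) (fun _ _ => True)
    (fun s => wt (unif ι) (fun t => 2 ^ (K + 1) * |Th t - Th s| < 2) ≤ 1 / 8 ∧
            wt (unif ι) (fun t => B < 2 ^ (K + 1) * |Th t - Th s|) ≤ 1 / 8)
    B r p₄ κ 0 d e₂ M K K₂ u₀ L hτ hr hconc (fun s hs => hs.1)
    (fun s hs => hs.2) hB hp₄ (by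
      apply le_of_eq
      refine Finset.sum_eq_zero fun s _ => ?_
      have : wt (unif ι) (fun t => (wt (unif ι) (fun t => 2 ^ (K + 1) * |Th t - Th s| < 2) ≤
          1 / 8 ∧ wt (unif ι) (fun t => B < 2 ^ (K + 1) * |Th t - Th s|) ≤ 1 / 8) ∧
          ¬ True) = 0 := Finset.sum_eq_zero fun t _ => ind_neg (by tauto) _
      rw [this, mul_zero]) hκ hκ' (by
      rw [mul_zero, zero_mul]
      exact hp₄.le) hε₂ hKK hL hd hd1 he₂0 he (fun s t _ => (hx t s).1)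
    (fun s t _ => TIV_coord 0 (hx t s).2.2)
  refine lt_of_le_of_lt (wt_mono unif_nonneg ?_) key
  intro s hs
  refine ⟨hs.1, fun hF => ?_⟩
  have h1 := full_unsmooth hp (0 : Fin 2) (X s) (fun _ => ()) K L hN hNL hF
  linarith [hs.2]

omit [Fintype ι] in
/-- The small normal part of a translation of the smoothed position can be dropped. -/
lemma TIV_drop {U : Type} {p : Ω → ℝ} (hp : IsLaw p) {N : ℕ} (hN : 0 < N)
    (X : Ω → Fin 2 → ℤ) (V : Ω → U) (v : Fin 2 → ℤ) (ρ e : ℝ) (hv : |(v 0 : ℝ)| ≤ ρ)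
    (h : TIV (smp 2 N p) (smX (N := N) X) (fun w => V w.1) v e) :
    TIV (smp 2 N p) (smX (N := N) X) (fun w => V w.1) ![0, v 1] (e + 2 * ρ / N) := by
  intro E
  have h1 := h E
  have hρ : 0 ≤ ρ := (abs_nonneg _).trans hv
  set c : Fin 2 → ℤ := ![-(v 0), 0] with hc
  have hsum : ![0, v 1] = v + c := by
    funext i
    fin_cases i
    · simp [hc]
    · simp [hc]
  have hcb : ∀ i, |(c i : ℝ)| ≤ ρ := by
    intro i
    fin_cases i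
    · simp only [hc]
      simpa using hv
    · simp only [hc]
      simpa using hρ
  have e1 : ∀ u : Fin 2 → ℤ, Pr (smp 2 N p) {w | (smX (N := N) X w + u, V w.1) ∈ E} =
      ∑ ω, p ω * avg 2 N {y | (y, V ω) ∈ E} (X ω + u) := by
    intro u
    rw [← Pr_smp p (fun ω => X ω + u) (fun ω => {y | (y, V ω) ∈ E})]
    refine Pr_congr _ fun w => ?_
    have e2 : smX (N := N) X w + u = smX (N := N) (fun ω => X ω + u) w := by
      funext i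
      simp only [smX, Pi.add_apply]
      ring
    show (smX (N := N) X w + u, V w.1) ∈ E ↔
      (smX (N := N) (fun ω => X ω + u) w, V w.1) ∈ E
    rw [e2]
  have e3 : |Pr (smp 2 N p) {w | (smX (N := N) X w + v, V w.1) ∈ E} -
      Pr (smp 2 N p) {w | (smX (N := N) X w + ![0, v 1], V w.1) ∈ E}| ≤ 2 * ρ / N := by
    rw [e1, e1, ← Finset.sum_sub_distrib, hsum]
    refine (Finset.abs_sum_le_sum_abs _ _).trans ?_
    have e4 : ∀ ω, |p ω * avg 2 N {y | (y, V ω) ∈ E} (X ω + v) -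
        p ω * avg 2 N {y | (y, V ω) ∈ E} (X ω + (v + c))| ≤ p ω * (2 * ρ / N) := by
      intro ω
      rw [← mul_sub, abs_mul, abs_of_nonneg (hp.nonneg ω)]
      refine mul_le_mul_of_nonneg_left ?_ (hp.nonneg ω)
      have e5 := avg_shift hN {y | (y, V ω) ∈ E} (X ω + v) c ρ hcb
      rw [abs_sub_comm, ← add_assoc]
      refine e5.trans (le_of_eq ?_)
      push_cast
      ring
    refine (Finset.sum_le_sum fun ω _ => e4 ω).trans ?_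
    rw [← Finset.sum_mul, hp.sum_one, one_mul]
  calc |Pr (smp 2 N p) {w | (smX (N := N) X w, V w.1) ∈ E} -
      Pr (smp 2 N p) {w | (smX (N := N) X w + ![0, v 1], V w.1) ∈ E}|
      ≤ |Pr (smp 2 N p) {w | (smX (N := N) X w, V w.1) ∈ E} -
          Pr (smp 2 N p) {w | (smX (N := N) X w + v, V w.1) ∈ E}| +
        |Pr (smp 2 N p) {w | (smX (N := N) X w + v, V w.1) ∈ E} -
          Pr (smp 2 N p) {w | (smX (N := N) X w + ![0, v 1], V w.1) ∈ E}| :=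
        abs_sub_le _ _ _
    _ ≤ e + 2 * ρ / N := add_le_add h1 e3

omit [Fintype ι] in
/-- The rows of nearby variables, with a second coordinate in the condition. -/
lemma CH_near2 {T : Type} {q : Ω → ℝ} (hq : IsLaw q) (X X' Y Y' : Ω → ℤ) (W : Ω → T)
    (a B b : ℕ) (ha : 0 < a) (haB : a ≤ B) (hb : 0 < b) (h : ∀ w, X w ≤ X' w ∧ X' w < X w + a)
    (h' : ∀ w, Y w ≤ Y' w ∧ Y' w < Y w + b) :
    CH q (fun w => X' w / (a : ℤ)) (fun w => (X' w / (B : ℤ), (Y' w / (b : ℤ), W w))) ≤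
      CH q (fun w => X w / (a : ℤ)) (fun w => (X w / (B : ℤ), (Y w / (b : ℤ), W w))) +
        3 * Real.log 3 := by
  have h1 := CH_near hq X X' (fun w => (Y' w / (b : ℤ), W w)) a B ha haB h
  have hbZ : (0 : ℤ) < b := by exact_mod_cast hb
  have s1 := CH_le_add hq.nonneg (fun w => X w / (a : ℤ)) (fun w => Y w / (b : ℤ))
    (fun w => (X w / (B : ℤ), (Y' w / (b : ℤ), W w)))
  have s2 : CH q (fun w => Y w / (b : ℤ)) (fun w => (X w / (B : ℤ), (Y' w / (b : ℤ), W w))) ≤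
      Real.log 3 := by
    refine PRM.CH_two hq _ _ (fun t => t.2.1) ?_
    intro w
    have l1 : Y w / (b : ℤ) ≤ Y' w / (b : ℤ) := Int.ediv_le_ediv hbZ (h' w).1
    have l2 : Y' w / (b : ℤ) ≤ Y w / (b : ℤ) + 1 := by
      have e1 : Y w / (b : ℤ) + 1 = (Y w + 1 * b) / (b : ℤ) := by
        rw [Int.add_mul_ediv_right _ _ hbZ.ne']
      rw [e1]
      exact Int.ediv_le_ediv hbZ (by linarith [(h' w).2])
    simp only
    omega
  have s3 : CH q (fun w => X w / (a : ℤ))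
      (fun w => (Y w / (b : ℤ), (X w / (B : ℤ), (Y' w / (b : ℤ), W w)))) ≤
      CH q (fun w => X w / (a : ℤ)) (fun w => (X w / (B : ℤ), (Y w / (b : ℤ), W w))) := by
    refine CH_mono_cond hq.nonneg ?_
    intro w w' _ _ h1
    have h2 := Prod.ext_iff.1 h1
    have h3 := Prod.ext_iff.1 h2.2
    have h4 := Prod.ext_iff.1 h3.2
    exact Prod.ext h3.1 (Prod.ext h2.1 h4.2)
  linarith

omit [Fintype ι] in
/-- One translation with a small normal part makes the tangential rows full, given the coarser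
rows and the rows of the normal coordinate which are not too fine. -/
theorem tan_of_tiv {p : Ω → ℝ} (hp : IsLaw p) {N : ℕ} (hN : 0 < N) (X : Ω → Fin 2 → ℤ)
    (v : Fin 2 → ℤ) (ρ e : ℝ) (κ L β κ₀ : ℕ) (hv : |(v 0 : ℝ)| ≤ ρ)
    (hT : TIV (smp 2 N p) (smX (N := N) X) (fun _ => ()) v e) (hκ : κ ≤ L)
    (h1 : (2 : ℤ) ^ β ≤ |v 1|) (h2 : |v 1| ≤ 2 ^ κ) (he : 0 ≤ e)
    (he2 : 9 * 4 ^ (L - β) * (e + 2 * ρ / N) ≤ 1) (hN1 : N ≤ 2 ^ κ) (hN0 : N ≤ 2 ^ κ₀) :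
    ((L : ℝ) - κ) * Real.log 2 - 5 - 3 * Real.log 3 ≤
      CH p (fun ω => X ω 1 / ((2 ^ κ : ℕ) : ℤ))
        (fun ω => (X ω 1 / ((2 ^ L : ℕ) : ℤ), (X ω 0 / ((2 ^ κ₀ : ℕ) : ℤ), ()))) := by
  have hsm := PRM.isLaw_smp (d := 2) hN hp
  have hρ : 0 ≤ ρ := (abs_nonneg _).trans hv
  have hd := TIV_drop hp hN X (fun _ => ()) v ρ e hv hT
  -- the tangential coordinate, with the normal one as side information
  have hT' : TIV (smp 2 N p) (fun w => smX (N := N) X w 1)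
      (fun w => (smX (N := N) X w 0 / ((2 ^ κ₀ : ℕ) : ℤ), ())) (v 1) (e + 2 * ρ / N) := by
    intro E
    have h3 := hd {z | (z.1 1, (z.1 0 / ((2 ^ κ₀ : ℕ) : ℤ), ())) ∈ E}
    have e1 : Pr (smp 2 N p) {w | (smX (N := N) X w, ()) ∈
        {z : (Fin 2 → ℤ) × Unit | (z.1 1, (z.1 0 / ((2 ^ κ₀ : ℕ) : ℤ), ())) ∈ E}} =
        Pr (smp 2 N p) {w | (smX (N := N) X w 1,
          (smX (N := N) X w 0 / ((2 ^ κ₀ : ℕ) : ℤ), ())) ∈ E} := Pr_congr _ fun w => Iff.rfl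
    have e2 : Pr (smp 2 N p) {w | (smX (N := N) X w + ![0, v 1], ()) ∈
        {z : (Fin 2 → ℤ) × Unit | (z.1 1, (z.1 0 / ((2 ^ κ₀ : ℕ) : ℤ), ())) ∈ E}} =
        Pr (smp 2 N p) {w | (smX (N := N) X w 1 + v 1,
          (smX (N := N) X w 0 / ((2 ^ κ₀ : ℕ) : ℤ), ())) ∈ E} := Pr_congr _ fun w => by
      have a0 : (smX (N := N) X w + ![0, v 1]) 0 = smX (N := N) X w 0 := by simp
      have a1 : (smX (N := N) X w + ![0, v 1]) 1 = smX (N := N) X w 1 + v 1 := by simp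
      show ((smX (N := N) X w + ![0, v 1]) 1,
        ((smX (N := N) X w + ![0, v 1]) 0 / ((2 ^ κ₀ : ℕ) : ℤ), ())) ∈ E ↔ _
      rw [a0, a1]
      exact Iff.rfl
    rwa [e1, e2] at h3
  have h4 := full_of_tiv hsm (fun w => smX (N := N) X w 1)
    (fun w => (smX (N := N) X w 0 / ((2 ^ κ₀ : ℕ) : ℤ), ())) κ L β (v 1) (e + 2 * ρ / N) hκ h1 h2
    (by positivity) he2 hT'
  have hsmX : ∀ (i : Fin 2) (A : ℕ), N ≤ A → ∀ w : Ω × (Fin 2 → Fin N),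
      X w.1 i ≤ smX (N := N) X w i ∧ smX (N := N) X w i < X w.1 i + (A : ℕ) := by
    intro i A hA w
    simp only [smX]
    have h2 : ((w.2 i : ℕ) : ℤ) < (A : ℕ) := by
      have := (w.2 i).2
      exact_mod_cast lt_of_lt_of_le this hA
    have h3 : (0 : ℤ) ≤ ((w.2 i : ℕ) : ℤ) := by positivity
    constructor <;> linarith
  have h5 := CH_near2 hsm (fun w => X w.1 1) (fun w => smX (N := N) X w 1)
    (fun w => X w.1 0) (fun w => smX (N := N) X w 0) (fun _ => ()) (2 ^ κ) (2 ^ L) (2 ^ κ₀)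
    (by positivity) (Nat.pow_le_pow_right (by norm_num) hκ) (by positivity)
    (hsmX 1 _ hN1) (hsmX 0 _ hN0)
  have h6 : CH (smp 2 N p) (fun w => X w.1 1 / ((2 ^ κ : ℕ) : ℤ))
      (fun w => (X w.1 1 / ((2 ^ L : ℕ) : ℤ), (X w.1 0 / ((2 ^ κ₀ : ℕ) : ℤ), ()))) =
      CH p (fun ω => X ω 1 / ((2 ^ κ : ℕ) : ℤ))
        (fun ω => (X ω 1 / ((2 ^ L : ℕ) : ℤ), (X ω 0 / ((2 ^ κ₀ : ℕ) : ℤ), ()))) :=
    PRM.CH_smp (d := 2) hN p (fun ω => X ω 1 / ((2 ^ κ : ℕ) : ℤ))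
      (fun ω => (X ω 1 / ((2 ^ L : ℕ) : ℤ), (X ω 0 / ((2 ^ κ₀ : ℕ) : ℤ), ())))
  linarith

omit [Fintype ι] in
/-- **The tangential coordinate.** A member `s` for which some member `t` at distance at least `r`
has nearly the same frame. -/
theorem ati_tan {p : Ω → ℝ} (hp : IsLaw p) {X : ι → Ω → Fin 2 → ℤ}
    {τ Th : ι → ℝ} {N L L₁ : ℕ} {d e₂ : ℝ} (h : ATI p X τ Th N L L₁ d e₂) (hN : 0 < N)
    (ρ r : ℝ) (K u₀ c₀ κ₀ : ℕ) (hd : 1 / 2 ^ u₀ ≤ |d|) (hd1 : |d| ≤ 1) (he₂0 : 0 ≤ e₂)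
    (hr : 1 / 2 ^ c₀ ≤ r) (hL₁ : u₀ + c₀ + 1 ≤ L₁)
    (he : 9 * 4 ^ (K + u₀ + c₀ + 2) * (e₂ + 2 * (ρ + 1) / N) ≤ 1) (hN1 : N ≤ 2 ^ (L₁ + 1))
    (hN0 : N ≤ 2 ^ κ₀) (hτ : ∀ t, 0 ≤ τ t ∧ τ t ≤ 1) (s t : ι) (hst : r ≤ |τ t - τ s|)
    (hTh : 2 ^ L * |Th t - Th s| ≤ ρ) :
    (K : ℝ) * Real.log 2 - 5 - 3 * Real.log 3 ≤
      CH p (fun ω => X s ω 1 / ((2 ^ (L₁ + 1) : ℕ) : ℤ))
        (fun ω => (X s ω 1 / ((2 ^ (L₁ + 1 + K) : ℕ) : ℤ),
          (X s ω 0 / ((2 ^ κ₀ : ℕ) : ℤ), ()))) := by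
  obtain ⟨x, hx⟩ := h
  obtain ⟨x0, x1, xT⟩ := hx t s
  have hτ1 : |τ t - τ s| ≤ 1 := by
    rw [abs_le]
    constructor <;> linarith [(hτ t).1, (hτ t).2, (hτ s).1, (hτ s).2]
  have hv : |(x t s 0 : ℝ)| ≤ ρ + 1 := by
    have a1 : |2 ^ L * ((τ t - τ s) * (Th t - Th s)) * d| ≤ ρ := by
      rw [abs_mul, abs_mul, abs_mul, abs_of_pos (by positivity : (0 : ℝ) < 2 ^ L)]
      calc 2 ^ L * (|τ t - τ s| * |Th t - Th s|) * |d|
          ≤ 2 ^ L * (1 * |Th t - Th s|) * 1 := by gcongr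
        _ = 2 ^ L * |Th t - Th s| := by ring
        _ ≤ ρ := hTh
    have a2 := abs_sub_abs_le_abs_sub (x t s 0 : ℝ) (2 ^ L * ((τ t - τ s) * (Th t - Th s)) * d)
    linarith
  have b1 := abs_le.mp x1
  have hlow : (2 : ℤ) ^ (L₁ - u₀ - c₀ - 1) ≤ |x t s 1| := by
    have a1 : (2 : ℝ) ^ (L₁ - u₀ - c₀) ≤ 2 ^ L₁ * |τ t - τ s| * |d| := by
      have a2 : (2 : ℝ) ^ (L₁ - u₀ - c₀) = 2 ^ L₁ * (1 / 2 ^ c₀) * (1 / 2 ^ u₀) := by
        have a3 : (2 : ℝ) ^ L₁ = 2 ^ (L₁ - u₀ - c₀) * (2 ^ c₀ * 2 ^ u₀) := by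
          rw [← pow_add, ← pow_add]
          congr 1
          omega
        rw [a3]
        field_simp
      rw [a2]
      have a4 : 1 / 2 ^ c₀ ≤ |τ t - τ s| := hr.trans hst
      gcongr
    have a5 : (2 : ℝ) ^ (L₁ - u₀ - c₀) = 2 * 2 ^ (L₁ - u₀ - c₀ - 1) := by
      rw [← pow_succ']
      congr 1
      omega
    have a6 : (1 : ℝ) ≤ 2 ^ (L₁ - u₀ - c₀ - 1) := one_le_pow₀ (by norm_num)
    have a7 : (((2 : ℤ) ^ (L₁ - u₀ - c₀ - 1) : ℤ) : ℝ) ≤ ((|x t s 1| : ℤ) : ℝ) := by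
      push_cast at b1 ⊢
      linarith [b1.1]
    exact_mod_cast a7
  have hupp : |x t s 1| ≤ (2 : ℤ) ^ (L₁ + 1) := by
    have a1 : 2 ^ L₁ * |τ t - τ s| * |d| ≤ 2 ^ L₁ := by
      calc 2 ^ L₁ * |τ t - τ s| * |d| ≤ 2 ^ L₁ * 1 * 1 := by gcongr
        _ = 2 ^ L₁ := by ring
    have a2 : (1 : ℝ) ≤ 2 ^ L₁ := one_le_pow₀ (by norm_num)
    have a3 : ((|x t s 1| : ℤ) : ℝ) ≤ (((2 : ℤ) ^ (L₁ + 1) : ℤ) : ℝ) := by
      push_cast at b1 ⊢
      rw [pow_succ]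
      linarith [b1.2]
    exact_mod_cast a3
  have h1 := tan_of_tiv hp hN (X s) (x t s) (ρ + 1) e₂ (L₁ + 1) (L₁ + 1 + K)
    (L₁ - u₀ - c₀ - 1) κ₀ hv xT (by omega) hlow hupp he₂0 (by
      rw [show L₁ + 1 + K - (L₁ - u₀ - c₀ - 1) = K + u₀ + c₀ + 2 by omega]
      exact he) hN1 hN0
  have e1 : (((L₁ + 1 + K : ℕ) : ℝ) - ((L₁ + 1 : ℕ) : ℝ)) = K := by
    push_cast
    ring
  rw [e1] at h1
  exact h1

end

end Pool.KX
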