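import Pool.Agent.H55.K2.SY1

/-!
# Short separation of bases whose own class is thin

Bases `a` whose own class `{|g t - g a| < 2}` has mass at most `1 / 8`, with `|g t - g a| ≤ B` for
all other times outside a set of mass `1 / 8`. Nothing is assumed about the other times.
-/

set_option autoImplicit false

namespace Pool.KX

open Finset Real
open Pool.Agent.H49.Ent Pool.Agent.H32.Dense Pool.STK Pool.KAL

section

variable {Θ : Type} [Fintype Θ]

lemma wt_true {μ : Θ → ℝ} : wt μ (fun _ => True) = ∑ x, μ x := by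
  unfold wt
  exact Finset.sum_congr rfl fun x _ => ind_pos trivial _

/-- **Bases with a thin own class.** -/
theorem own_thm {μ : Θ → ℝ} (hμ : ∀ x, 0 ≤ μ x) (hμ1 : ∑ x, μ x = 1) (τ g : Θ → ℝ)
    (D : Θ → Prop) (B ε r p₄ κ p : ℝ) (N : ℕ) (hτ : ∀ t, 0 ≤ τ t ∧ τ t ≤ 1) (hr : 0 < r)
    (hconc : ∀ c, wt μ (fun t => |τ t - c| < r) ≤ κ)
    (hthin : ∀ a, D a → wt μ (fun t => |g t - g a| < 2) ≤ 1 / 8)
    (hfar : ∀ a, D a → wt μ (fun t => B < |g t - g a|) ≤ 1 / 8) (hB : B + 2 ≤ N)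
    (hp₄ : 0 < p₄) (hDm : p₄ ≤ wt μ D)
    (hgap : ∑ a, μ a * wt2 μ (fun t t' => D a ∧
      ε < |dsp τ g a t - dsp τ g a t'| ∧ |dsp τ g a t - dsp τ g a t'| ≤ 1) ≤ p)
    (hκ : 8 * κ * (4 * N ^ 2) ≤ 3 / 4) (hκ' : 16 * N * κ < p₄)
    (hp : 1024 * N * p * (4 * (N : ℝ) ^ 2) ^ 2 ≤ p₄) (hε : 6 * ε < r ^ 5) : False := by
  classical
  -- the set of partners of one base
  have hC : ∀ a, D a → 3 / 4 ≤ wt μ (fun t => 2 ≤ |g t - g a| ∧ |g t - g a| ≤ B) := by
    intro a ha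
    have h1 := wt_diff hμ (fun _ => True) (fun t => |g t - g a| < 2 ∨ B < |g t - g a|)
    have h2 := wt_or hμ (fun t => |g t - g a| < 2) (fun t => B < |g t - g a|)
    have h3 : wt μ (fun t => True ∧ ¬ (|g t - g a| < 2 ∨ B < |g t - g a|)) ≤
        wt μ (fun t => 2 ≤ |g t - g a| ∧ |g t - g a| ≤ B) :=
      wt_mono hμ fun t ht => by
        have h4 := ht.2
        push Not at h4
        exact h4
    rw [wt_true, hμ1] at h1
    linarith [hthin a ha, hfar a ha]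
  obtain ⟨a₀, ha₀⟩ := wt_exists (lt_of_lt_of_le hp₄ hDm)
  have hB2 : 2 ≤ B := by
    obtain ⟨t, ht⟩ := wt_exists (lt_of_lt_of_le (by norm_num) (hC a₀ ha₀))
    exact ht.1.trans ht.2
  have hN0 : (0 : ℝ) < N := by linarith
  -- all bases are close
  have hclose : ∀ a, D a → |g a - g a₀| ≤ 2 * B := by
    intro a ha
    have h1 := wt_diff hμ (fun _ => True) (fun t => B < |g t - g a| ∨ B < |g t - g a₀|)
    have h2 := wt_or hμ (fun t => B < |g t - g a|) (fun t => B < |g t - g a₀|)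
    rw [wt_true, hμ1] at h1
    have h3 : 0 < wt μ (fun t => True ∧ ¬ (B < |g t - g a| ∨ B < |g t - g a₀|)) := by
      linarith [hfar a ha, hfar a₀ ha₀]
    obtain ⟨t, _, ht⟩ := wt_exists h3
    push Not at ht
    have e1 : g a - g a₀ = (g t - g a₀) - (g t - g a) := by ring
    rw [e1]
    refine (abs_sub _ _).trans ?_
    linarith [ht.1, ht.2]
  -- a cell of bases
  obtain ⟨k, hk⟩ := wt_pigeon hμ D (fun a => ⌊2 * (g a - g a₀)⌋)
    (Finset.Ico (-(4 * N : ℤ)) (4 * N : ℤ)) (by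
      intro a ha
      have h1 := abs_le.mp (hclose a ha)
      rw [Finset.mem_Ico]
      constructor
      · rw [Int.le_floor]
        push_cast
        linarith [h1.1]
      · rw [Int.floor_lt]
        push_cast
        linarith [h1.2]) (8 * N) (by positivity) (by
      rw [Int.card_Ico]
      have e1 : ((4 * N : ℤ) - (-(4 * N : ℤ))).toNat = 8 * N := by omega
      rw [e1]
      push_cast
      exact le_rfl) (lt_of_lt_of_le hp₄ hDm)
  set D' : Θ → Prop := fun a => D a ∧ ⌊2 * (g a - g a₀)⌋ = k with hD'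
  have hD'm : p₄ / (8 * N) ≤ wt μ D' :=
    le_trans (div_le_div_of_nonneg_right hDm (by positivity)) hk
  have hp8 : 0 < p₄ / (8 * (N : ℝ)) := by positivity
  obtain ⟨a₁, ha₁⟩ := wt_exists (lt_of_lt_of_le hp8 hD'm)
  have hcell : ∀ a, D' a → |g a - g a₁| ≤ 1 / 2 := by
    intro a ha
    have h1 := Int.abs_sub_lt_one_of_floor_eq_floor (ha.2.trans ha₁.2.symm)
    have e1 : 2 * (g a - g a₀) - 2 * (g a₁ - g a₀) = 2 * (g a - g a₁) := by ring
    rw [e1, abs_mul, abs_of_pos (by norm_num : (0 : ℝ) < 2)] at h1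
    linarith
  refine sho2_thm hμ τ g (fun t => 2 ≤ |g t - g a₁| ∧ |g t - g a₁| ≤ B) D' (B + 1) ε r (3 / 4)
    (p₄ / (8 * N)) κ p N hτ hr hconc ?_ (by linarith) (by norm_num) hp8 (hC a₁ ha₁.1) hD'm ?_ hκ
    ?_ ?_ hε
  · intro a ha t ht
    have h1 := hcell a ha
    have e1 : g t - g a = (g t - g a₁) - (g a - g a₁) := by ring
    constructor
    · have h2 := abs_sub_abs_le_abs_sub (g t - g a₁) (g a - g a₁)
      rw [e1]
      linarith [ht.1]
    · rw [e1]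
      refine (abs_sub _ _).trans ?_
      linarith [ht.2]
  · refine le_trans (Finset.sum_le_sum fun a _ => mul_le_mul_of_nonneg_left ?_ (hμ a)) hgap
    exact wt2_mono hμ fun t t' _ _ h => ⟨h.1.1, h.2.2.2⟩
  · rw [lt_div_iff₀ (by positivity)]
    linarith
  · have e1 : p₄ / (8 * (N : ℝ)) * (3 / 4) ^ 2 = p₄ * (9 / 16) / (8 * N) := by ring
    rw [e1, le_div_iff₀ (by positivity)]
    have h1 : 64 * p * (4 * (N : ℝ) ^ 2) ^ 2 * (8 * N) =
        (1024 * N * p * (4 * (N : ℝ) ^ 2) ^ 2) / 2 := by ring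
    rw [h1]
    linarith

/-- **The short step at one context for bases with a thin own class.** In the units
`2 ^ (-K - 1)` of the frame the own class of `a` has mass at most `1 / 8` and all other times
outside a set of mass `1 / 8` are at distance at most `B`. Then the rows are full at all such bases
outside a set of mass `p₄`. -/
theorem short_own_thm {Ω U ι : Type} [Fintype Ω] [Fintype ι] {p : Ω → ℝ} (hp : IsLaw p)
    {μ : ι → ℝ} (hμ : ∀ x, 0 ≤ μ x) (hμ1 : ∑ x, μ x = 1) (τ Th : ι → ℝ) (Nh : ι → Ω → ℤ)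
    (V : ι → Ω → U) (x : ι → ι → ℤ) (Good : ι → ι → Prop) (D : ι → Prop)
    (B r p₄ κ q d e : ℝ) (N K K₂ u₀ L : ℕ) (hτ : ∀ t, 0 ≤ τ t ∧ τ t ≤ 1) (hr : 0 < r)
    (hconc : ∀ c, wt μ (fun t => |τ t - c| < r) ≤ κ)
    (hthin : ∀ a, D a → wt μ (fun t => 2 ^ (K + 1) * |Th t - Th a| < 2) ≤ 1 / 8)
    (hfar : ∀ a, D a → wt μ (fun t => B < 2 ^ (K + 1) * |Th t - Th a|) ≤ 1 / 8)
    (hB : B + 2 ≤ N) (hp₄ : 0 < p₄)
    (hbad : ∑ a, μ a * wt μ (fun t => D a ∧ ¬ Good a t) ≤ q)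
    (hκ : 8 * κ * (4 * N ^ 2) ≤ 3 / 4) (hκ' : 16 * N * κ < p₄)
    (hq : 2048 * N * q * (4 * (N : ℝ) ^ 2) ^ 2 ≤ p₄) (hε : 6 * (2 ^ (K + 1) / 2 ^ K₂) < r ^ 5)
    (hKK : K ≤ K₂) (hL : K₂ + u₀ + 2 ≤ L) (hd : 1 / 2 ^ u₀ ≤ |d|) (hd1 : |d| ≤ 1) (he : 0 ≤ e)
    (he2 : 18 * 4 ^ (K₂ + u₀ + 1) * e ≤ 1)
    (hx : ∀ a t, Good a t → |(x t a : ℝ) - 2 ^ L * ((τ t - τ a) * (Th t - Th a)) * d| ≤ 1)
    (hinv : ∀ a t, Good a t → TIV p (Nh a) (V a) (x t a) e) :
    wt μ (fun a => D a ∧ ¬ Full p (Nh a) (V a) K L) < p₄ := by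
  by_contra hcon
  push Not at hcon
  set g : ι → ℝ := fun t => 2 ^ (K + 1) * Th t with hg
  have hpow : (0 : ℝ) < 2 ^ (K + 1) := by positivity
  have hdsp : ∀ a t, dsp τ g a t = 2 ^ (K + 1) * ((τ t - τ a) * (Th t - Th a)) := by
    intro a t
    simp only [dsp, hg]
    ring
  have hgg : ∀ a t, |g t - g a| = 2 ^ (K + 1) * |Th t - Th a| := by
    intro a t
    have e1 : g t - g a = 2 ^ (K + 1) * (Th t - Th a) := by
      simp only [hg]
      ring
    rw [e1, abs_mul, abs_of_pos hpow]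
  refine own_thm hμ hμ1 τ g (fun a => D a ∧ ¬ Full p (Nh a) (V a) K L) B
    (2 ^ (K + 1) / 2 ^ K₂) r p₄ κ (2 * q) N hτ hr hconc ?_ ?_ hB hp₄ hcon ?_ hκ hκ' ?_ hε
  · intro a ha
    simp only [hgg]
    exact hthin a ha.1
  · intro a ha
    simp only [hgg]
    exact hfar a ha.1
  · -- the gap
    have h1 : ∀ a, wt2 μ (fun t t' => (D a ∧ ¬ Full p (Nh a) (V a) K L) ∧
        2 ^ (K + 1) / 2 ^ K₂ < |dsp τ g a t - dsp τ g a t'| ∧
        |dsp τ g a t - dsp τ g a t'| ≤ 1) ≤ 2 * wt μ (fun t => D a ∧ ¬ Good a t) := by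
      intro a
      have h2 : wt2 μ (fun t t' => (D a ∧ ¬ Full p (Nh a) (V a) K L) ∧
          2 ^ (K + 1) / 2 ^ K₂ < |dsp τ g a t - dsp τ g a t'| ∧
          |dsp τ g a t - dsp τ g a t'| ≤ 1) ≤
          wt2 μ (fun t t' => (D a ∧ ¬ Good a t) ∨ (D a ∧ ¬ Good a t')) := by
        refine wt2_mono hμ ?_
        intro t t' _ _ hh
        obtain ⟨⟨hDa, hF⟩, hlo, hup⟩ := hh
        by_cases g1 : Good a t
        · by_cases g2 : Good a t'
          · exfalso
            apply hF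
            have e1 : |(τ t - τ a) * (Th t - Th a) - (τ t' - τ a) * (Th t' - Th a)| =
                |dsp τ g a t - dsp τ g a t'| / 2 ^ (K + 1) := by
              rw [hdsp, hdsp, ← mul_sub, abs_mul, abs_of_pos hpow]
              field_simp
            refine full_of_pair hp (Nh a) (V a) K K₂ u₀ L _ _ d e (x t a) (x t' a) hKK hL hd hd1
              he he2 (hx a t g1) (hx a t' g2) (hinv a t g1) (hinv a t' g2) ?_ ?_
            · rw [e1, le_div_iff₀ hpow]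
              refine le_trans (le_of_eq ?_) hlo.le
              ring
            · rw [e1]
              exact div_le_div_of_nonneg_right hup hpow.le
          · exact Or.inr ⟨hDa, g2⟩
        · exact Or.inl ⟨hDa, g1⟩
      have h3 := wt2_or hμ (fun t _ => D a ∧ ¬ Good a t) (fun _ t' => D a ∧ ¬ Good a t')
      have h4 := wt2_left hμ hμ1.le (fun t => D a ∧ ¬ Good a t)
      have h5 : wt2 μ (fun _ t' => D a ∧ ¬ Good a t') =
          wt2 μ (fun t _ => D a ∧ ¬ Good a t) := wt2_swap μ (fun _ t' => D a ∧ ¬ Good a t')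
      rw [h5] at h3
      linarith
    calc ∑ a, μ a * wt2 μ (fun t t' => (D a ∧ ¬ Full p (Nh a) (V a) K L) ∧
        2 ^ (K + 1) / 2 ^ K₂ < |dsp τ g a t - dsp τ g a t'| ∧
        |dsp τ g a t - dsp τ g a t'| ≤ 1)
        ≤ ∑ a, μ a * (2 * wt μ (fun t => D a ∧ ¬ Good a t)) :=
          Finset.sum_le_sum fun a _ => mul_le_mul_of_nonneg_left (h1 a) (hμ a)
      _ = 2 * ∑ a, μ a * wt μ (fun t => D a ∧ ¬ Good a t) := by
          rw [Finset.mul_sum]
          exact Finset.sum_congr rfl fun a _ => by ring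
      _ ≤ 2 * q := by linarith
  · linarith

end

end Pool.KX
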