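import Pool.Agent.H55.K2.CSW

/-!
# Row shift

The certificate of one translation, for rows which are coarser than the translation. If a member
`t` of the cluster has a frame at distance between `2 u` and `2 ^ l u` from the frame `z` of the
majority, then at every member `s` of the majority the rows which are coarser than the row of `u`
by `l + 1` are full.
-/

set_option autoImplicit false

namespace Pool.KX

open Finset Real
open Pool.Agent.H49.Ent Pool.Agent.H32.Dense Pool.STK Pool.KAF Pool.KAL Pool.KAL.TI Pool.CLU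

section

variable {Ω ι : Type} [Fintype Ω]

/-- One translation of the normal coordinate of size between `2 ^ β` and `2 ^ κ`. -/
theorem ati_row {p : Ω → ℝ} (hp : IsLaw p) {X : ι → Ω → Fin 2 → ℤ} {τ Th : ι → ℝ} {N L L₁ : ℕ}
    {d e₂ : ℝ} (h : ATI p X τ Th N L L₁ d e₂) (hN : 0 < N) (κ β K : ℕ) (s t : ι)
    (h1 : 2 ^ β + 1 ≤ 2 ^ L * (|τ t - τ s| * |Th t - Th s|) * |d|)
    (h2 : 2 ^ L * (|τ t - τ s| * |Th t - Th s|) * |d| + 1 ≤ 2 ^ κ)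
    (he₂0 : 0 ≤ e₂) (he : 9 * 4 ^ (κ + K - β) * e₂ ≤ 1) (hNκ : N ≤ 2 ^ κ) :
    (K : ℝ) * Real.log 2 - 5 - 2 * Real.log 3 ≤
      CH p (fun ω => X s ω 0 / ((2 ^ κ : ℕ) : ℤ))
        (fun ω => (X s ω 0 / ((2 ^ (κ + K) : ℕ) : ℤ), ())) := by
  obtain ⟨x, hx⟩ := h
  obtain ⟨x0, -, xT⟩ := hx t s
  have hsm := PRM.isLaw_smp (d := 2) hN hp
  have hA : |2 ^ L * ((τ t - τ s) * (Th t - Th s)) * d| =
      2 ^ L * (|τ t - τ s| * |Th t - Th s|) * |d| := by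
    rw [abs_mul, abs_mul, abs_mul, abs_of_pos (by positivity : (0 : ℝ) < 2 ^ L)]
  have a1 := abs_sub_abs_le_abs_sub (x t s 0 : ℝ) (2 ^ L * ((τ t - τ s) * (Th t - Th s)) * d)
  have a2 := abs_sub_abs_le_abs_sub (2 ^ L * ((τ t - τ s) * (Th t - Th s)) * d) (x t s 0 : ℝ)
  rw [abs_sub_comm (2 ^ L * ((τ t - τ s) * (Th t - Th s)) * d) (x t s 0 : ℝ)] at a2
  rw [hA] at a1 a2
  have hlow : (2 : ℤ) ^ β ≤ |x t s 0| := by
    have a7 : (((2 : ℤ) ^ β : ℤ) : ℝ) ≤ ((|x t s 0| : ℤ) : ℝ) := by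
      push_cast
      linarith
    exact_mod_cast a7
  have hupp : |x t s 0| ≤ (2 : ℤ) ^ κ := by
    have a7 : ((|x t s 0| : ℤ) : ℝ) ≤ (((2 : ℤ) ^ κ : ℤ) : ℝ) := by
      push_cast
      linarith
    exact_mod_cast a7
  have h4 := full_of_tiv hsm (fun w => smX (N := N) (X s) w 0) (fun _ => ()) κ (κ + K) β
    (x t s 0) e₂ (Nat.le_add_right _ _) hlow hupp he₂0 he (TIV_coord 0 xT)
  have h5 : Full (smp 2 N p) (fun w => smX (N := N) (X s) w 0) (fun _ => ()) K (κ + K) := by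
    unfold Full
    rw [Nat.add_sub_cancel]
    have e1 : (((κ + K : ℕ) : ℝ) - κ) = K := by
      push_cast
      ring
    rw [e1] at h4
    exact h4
  have h6 := full_unsmooth hp (0 : Fin 2) (X s) (fun _ => ()) K (κ + K) hN (by
    rw [Nat.add_sub_cancel]
    exact hNκ) h5
  rw [Nat.add_sub_cancel] at h6
  exact h6

/-- **Row shift.** -/
theorem ati_shift {p : Ω → ℝ} (hp : IsLaw p) {X : ι → Ω → Fin 2 → ℤ} {τ Th : ι → ℝ}
    {N L L₁ : ℕ} {d e₂ : ℝ} (h : ATI p X τ Th N L L₁ d e₂) (hN : 0 < N) (z : ℝ)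
    (K k l u₀ c₀ : ℕ) (s t : ι) (hs : |Th s - z| ≤ 1 / 2 ^ k) (ht : 2 / 2 ^ k ≤ |Th t - z|)
    (ht' : |Th t - z| ≤ 2 ^ l / 2 ^ k) (hst : 1 / 2 ^ c₀ ≤ |τ t - τ s|)
    (hτ : ∀ t, 0 ≤ τ t ∧ τ t ≤ 1) (hd : 1 / 2 ^ u₀ ≤ |d|) (hd1 : |d| ≤ 1)
    (hL : k + c₀ + u₀ + 1 ≤ L) (he₂0 : 0 ≤ e₂) (he : 9 * 4 ^ (K + l + u₀ + c₀ + 3) * e₂ ≤ 1)
    (hNκ : N ≤ 2 ^ (L - k + l + 2)) :
    (K : ℝ) * Real.log 2 - 5 - 2 * Real.log 3 ≤
      CH p (fun ω => X s ω 0 / ((2 ^ (L - k + l + 2) : ℕ) : ℤ))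
        (fun ω => (X s ω 0 / ((2 ^ (L - k + l + 2 + K) : ℕ) : ℤ), ())) := by
  have hk0 : (0 : ℝ) < 2 ^ k := by positivity
  have hl1 : (1 : ℝ) ≤ 2 ^ l := one_le_pow₀ (by norm_num)
  have hlo : 1 / 2 ^ k ≤ |Th t - Th s| := by
    have b1 := abs_sub_abs_le_abs_sub (Th t - z) (Th s - z)
    rw [sub_sub_sub_cancel_right] at b1
    have b2 : (2 : ℝ) / 2 ^ k = 1 / 2 ^ k + 1 / 2 ^ k := by ring
    linarith
  have hhi : |Th t - Th s| ≤ 2 * 2 ^ l / 2 ^ k := by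
    have b1 := abs_sub (Th t - z) (Th s - z)
    rw [sub_sub_sub_cancel_right] at b1
    have b2 : (1 : ℝ) / 2 ^ k ≤ 2 ^ l / 2 ^ k := by gcongr
    have b3 : 2 * (2 : ℝ) ^ l / 2 ^ k = 2 ^ l / 2 ^ k + 2 ^ l / 2 ^ k := by ring
    linarith
  have hτ1 : |τ t - τ s| ≤ 1 := by
    rw [abs_le]
    constructor <;> linarith [(hτ t).1, (hτ t).2, (hτ s).1, (hτ s).2]
  refine ati_row hp h hN (L - k + l + 2) (L - k - c₀ - u₀ - 1) K s t ?_ ?_ he₂0 ?_ hNκ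
  · have a2 : (2 : ℝ) ^ (L - k - c₀ - u₀) = 2 ^ L * (1 / 2 ^ c₀ * (1 / 2 ^ k)) * (1 / 2 ^ u₀) := by
      have a3 : (2 : ℝ) ^ L = 2 ^ (L - k - c₀ - u₀) * (2 ^ c₀ * 2 ^ k * 2 ^ u₀) := by
        rw [← pow_add, ← pow_add, ← pow_add]
        congr 1
        omega
      rw [a3]
      field_simp
    have a4 : (2 : ℝ) ^ (L - k - c₀ - u₀) ≤ 2 ^ L * (|τ t - τ s| * |Th t - Th s|) * |d| := by
      rw [a2]
      gcongr
    have a5 : (2 : ℝ) ^ (L - k - c₀ - u₀) = 2 * 2 ^ (L - k - c₀ - u₀ - 1) := by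
      rw [← pow_succ']
      congr 1
      omega
    have a6 : (1 : ℝ) ≤ 2 ^ (L - k - c₀ - u₀ - 1) := one_le_pow₀ (by norm_num)
    linarith
  · have a3 : (2 : ℝ) ^ L = 2 ^ (L - k) * 2 ^ k := by
      rw [← pow_add]
      congr 1
      omega
    have a4 : 2 ^ L * (|τ t - τ s| * |Th t - Th s|) * |d| ≤ 2 ^ (L - k + l + 1) := by
      calc 2 ^ L * (|τ t - τ s| * |Th t - Th s|) * |d|
          ≤ 2 ^ L * (1 * (2 * 2 ^ l / 2 ^ k)) * 1 := by gcongr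
        _ = 2 ^ (L - k + l + 1) := by
          rw [a3, pow_succ, pow_add]
          field_simp
    have a5 : (2 : ℝ) ^ (L - k + l + 2) = 2 * 2 ^ (L - k + l + 1) := by
      rw [← pow_succ']
    have a6 : (1 : ℝ) ≤ 2 ^ (L - k + l + 1) := one_le_pow₀ (by norm_num)
    linarith
  · rw [show L - k + l + 2 + K - (L - k - c₀ - u₀ - 1) = K + l + u₀ + c₀ + 3 by omega]
    exact he

end

end Pool.KX
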