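import Pool.Agent.H97.K2.PTI
import Pool.Agent.H55.K2.CSW
import Pool.Agent.H32.Dense.Split

/-!
# From the clusters to the places

A cluster is a line with several times; every member of the cluster has the law of a place. The
certificates at good macro values, which hold for most members of the cluster, give certificates
along the path for most places.
-/

set_option autoImplicit false

namespace Pool.KX

open Finset Real
open Pool.Agent.H49.Ent Pool.Agent.H32.Dense Pool.STK Pool.KAF Pool.KAL Pool.CLU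

section

variable {Ω : Type} [Fintype Ω]

/-- The conditional probability of the actual value of `x` given the actual value of `S`. -/
noncomputable def rat {σ α : Type} (p : Ω → ℝ) (S : Ω → σ) (x : Ω → α) (ω : Ω) : ℝ :=
  law p (fun v => (S v, x v)) (S ω, x ω) / law p S (S ω)

lemma law_cond_rat {σ α : Type} (p : Ω → ℝ) (S : Ω → σ) (x : Ω → α) (ω : Ω) :
    law (Pool.Agent.H49.Ent.cond p S (S ω)) x (x ω) = rat p S x ω := by
  classical
  rw [law_cond, rat]
  congr 1
  unfold law
  refine Finset.sum_congr rfl fun v _ => ?_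
  simp only [Prod.mk.injEq, and_comm]

lemma rat_pos {σ α : Type} {p : Ω → ℝ} (hp : ∀ ω, 0 ≤ p ω) (S : Ω → σ) (x : Ω → α) {ω : Ω}
    (hω : 0 < p ω) : 0 < rat p S x ω :=
  div_pos (law_pos hp _ hω) (law_pos hp _ hω)

/-- The mean of the inverse of the conditional probability is at most the number of values. -/
lemma ex_inv_rat {σ α : Type} {p : Ω → ℝ} (hp : IsLaw p) (S : Ω → σ) (x : Ω → α) {M : ℕ}
    (f : Ω → Fin M)
    (hf : ∀ ω ω', 0 < p ω → 0 < p ω' → S ω = S ω' → f ω = f ω' → x ω = x ω') :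
    Ex p (fun ω => (rat p S x ω)⁻¹) ≤ M := by
  classical
  -- a label with all values in `σ × Fin M`
  have h1 : Ex p (fun ω => (rat p S x ω)⁻¹) ≤
      Ex p (fun ω => (rat p S f ω)⁻¹) := by
    refine Ex_mono hp.nonneg fun ω hω => ?_
    have l1 := law_pos hp.nonneg S hω
    have l2 := law_pos hp.nonneg (fun v => (S v, x v)) hω
    have l3 := law_pos hp.nonneg (fun v => (S v, f v)) hω
    have h2 : law p (fun v => (S v, f v)) (S ω, f ω) ≤ law p (fun v => (S v, x v)) (S ω, x ω) := by
      refine law_mono_of_det (X := fun v => (S v, f v)) (Y := fun v => (S v, x v)) hp.nonneg ?_ hω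
      intro u u' h h' he
      simp only [Prod.mk.injEq] at he ⊢
      exact ⟨he.1, hf u u' h h' he.1 he.2⟩
    unfold rat
    rw [inv_div, inv_div]
    exact div_le_div_of_nonneg_left l1.le l3 h2
  refine h1.trans ?_
  have h2 : Ex p (fun ω => (rat p S f ω)⁻¹) =
      ∑ z ∈ univ.image (fun ω => (S ω, f ω)), law p (fun ω => (S ω, f ω)) z *
        (law p S z.1 / law p (fun ω => (S ω, f ω)) z) := by
    rw [← sum_mul_eq_sum_image p (fun ω => (S ω, f ω))
      (fun z => law p S z.1 / law p (fun ω => (S ω, f ω)) z)]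
    unfold Ex rat
    refine Finset.sum_congr rfl fun ω _ => ?_
    simp only [inv_div]
  rw [h2]
  have h3 : ∀ z ∈ univ.image (fun ω => (S ω, f ω)), law p (fun ω => (S ω, f ω)) z *
      (law p S z.1 / law p (fun ω => (S ω, f ω)) z) ≤ law p S z.1 := by
    intro z _
    rcases (law_nonneg hp.nonneg (fun ω => (S ω, f ω)) z).eq_or_lt with h0 | h0
    · rw [← h0, zero_mul]
      exact law_nonneg hp.nonneg S _
    · rw [mul_div_cancel₀ _ h0.ne']
  refine (Finset.sum_le_sum h3).trans ?_
  have h4 : univ.image (fun ω => (S ω, f ω)) ⊆ (univ.image S) ×ˢ (univ : Finset (Fin M)) := by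
    intro z hz
    obtain ⟨ω, -, rfl⟩ := Finset.mem_image.1 hz
    exact Finset.mem_product.2 ⟨Finset.mem_image_of_mem _ (mem_univ _), mem_univ _⟩
  refine (Finset.sum_le_sum_of_subset_of_nonneg h4 fun z _ _ => law_nonneg hp.nonneg S _).trans ?_
  rw [Finset.sum_product]
  simp only [Finset.sum_const, card_univ, Fintype.card_fin, nsmul_eq_mul]
  rw [← Finset.mul_sum, sum_law, hp.sum_one, mul_one]

/-- An almost maximal entropy bounds the conditional probabilities outside a small event. -/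
theorem path_of_ent {σ α : Type} {p : Ω → ℝ} (hp : IsLaw p) (S : Ω → σ) (x : Ω → α) {M : ℕ}
    (hM : 0 < M) (f : Ω → Fin M)
    (hf : ∀ ω ω', 0 < p ω → 0 < p ω' → S ω = S ω' → f ω = f ω' → x ω = x ω') {C s : ℝ}
    (hs : 0 < s) (h : Real.log M - C ≤ CH p x S) :
    Pr p {ω | Real.exp s / M < rat p S x ω} ≤ (C + 1) / s := by
  classical
  have hM0 : (0 : ℝ) < M := by exact_mod_cast hM
  rw [le_div_iff₀ hs, TI.Pr_eq, Finset.sum_mul]
  have h1 : ∑ ω, (if ω ∈ {ω | Real.exp s / M < rat p S x ω} then p ω else 0) * s ≤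
      Ex p (fun ω => Real.log (M * rat p S x ω) + (M * rat p S x ω)⁻¹) := by
    unfold Ex
    refine Finset.sum_le_sum fun ω _ => ?_
    rcases (hp.nonneg ω).eq_or_lt with h0 | h0
    · rw [← h0]
      simp
    have hr := rat_pos hp.nonneg S x h0
    have hu : 0 < M * rat p S x ω := mul_pos hM0 hr
    have hl : 1 ≤ Real.log (M * rat p S x ω) + (M * rat p S x ω)⁻¹ := by
      have := Real.one_sub_inv_le_log_of_pos hu
      linarith
    by_cases hω : ω ∈ {ω | Real.exp s / M < rat p S x ω}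
    · rw [if_pos hω]
      refine mul_le_mul_of_nonneg_left ?_ h0.le
      have h2 : Real.exp s ≤ M * rat p S x ω := by
        have h3 : Real.exp s / M < rat p S x ω := hω
        rw [div_lt_iff₀ hM0] at h3
        linarith
      have h3 := Real.log_le_log (Real.exp_pos s) h2
      rw [Real.log_exp] at h3
      have h4 : 0 ≤ (M * rat p S x ω)⁻¹ := by positivity
      linarith
    · rw [if_neg hω, zero_mul]
      exact mul_nonneg h0.le (by linarith)
  refine h1.trans ?_
  rw [Ex_add]
  have h2 : Ex p (fun ω => Real.log (M * rat p S x ω)) = Real.log M - CH p x S := by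
    rw [CH_eq_mean hp.nonneg]
    have h3 : ∀ ω, 0 < p ω → Real.log (M * rat p S x ω) =
        Real.log M - -Real.log (law p (fun ω => (S ω, x ω)) (S ω, x ω) / law p S (S ω)) := by
      intro ω hω
      rw [Real.log_mul hM0.ne' (rat_pos hp.nonneg S x hω).ne']
      unfold rat
      ring
    have h4 : Ex p (fun ω => Real.log (M * rat p S x ω)) = Ex p (fun ω => Real.log M -
        -Real.log (law p (fun ω => (S ω, x ω)) (S ω, x ω) / law p S (S ω))) := by
      unfold Ex
      refine Finset.sum_congr rfl fun ω _ => ?_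
      rcases (hp.nonneg ω).eq_or_lt with h0 | h0
      · rw [← h0]
        simp
      · have h5 := h3 ω h0
        show p ω * Real.log (M * rat p S x ω) = p ω * (Real.log M -
          -Real.log (law p (fun ω => (S ω, x ω)) (S ω, x ω) / law p S (S ω)))
        rw [h5]
    rw [h4, Ex_sub, Ex_const hp.sum_one]
  have h3 : Ex p (fun ω => (M * rat p S x ω)⁻¹) ≤ 1 := by
    have h4 : (fun ω => (M * rat p S x ω)⁻¹) = fun ω => (M : ℝ)⁻¹ * (rat p S x ω)⁻¹ := by
      funext ω
      rw [mul_inv]
    rw [h4, Ex_smul]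
    have h5 := ex_inv_rat hp S x f hf
    calc (M : ℝ)⁻¹ * Ex p (fun ω => (rat p S x ω)⁻¹) ≤ (M : ℝ)⁻¹ * M :=
        mul_le_mul_of_nonneg_left h5 (by positivity)
      _ = 1 := inv_mul_cancel₀ hM0.ne'
  rw [h2]
  linarith

/-- Extra randomness in the condition can be removed. -/
theorem rm_extra {σ τ α : Type} {p : Ω → ℝ} (hp : IsLaw p) (S : Ω → σ) (B : Ω → τ) (x : Ω → α)
    (hB : Det p S B) (s : ℝ) :
    Pr p {ω | Real.exp s * rat p S x ω < rat p B x ω} ≤ Real.exp (-s) := by
  have h1 := PTI.lr_step hp.nonneg (S := S) (a := B) (a' := fun v => (B v, x v))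
    (s' := fun v => (S v, x v)) (f := fun _ => 1) hB
    (by
      intro ω ω' h h' he
      simp only [Prod.mk.injEq] at he ⊢
      exact ⟨he.2, he.1.2⟩)
    (by
      intro ω ω' h h' he
      simp only [Prod.mk.injEq] at he
      exact he.1) (fun _ => zero_le_one) (fun _ _ _ _ _ => rfl)
  rw [Ex_const hp.sum_one] at h1
  have h2 := PTI.markov1 hp.nonneg (R := fun ω => rat p B x ω / rat p S x ω)
    (fun ω hω => (div_pos (rat_pos hp.nonneg B x hω) (rat_pos hp.nonneg S x hω)).le)
    (by
      refine le_trans (le_of_eq ?_) h1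
      unfold Ex
      refine Finset.sum_congr rfl fun ω _ => ?_
      rcases (hp.nonneg ω).eq_or_lt with h0 | h0
      · rw [← h0, zero_mul, zero_mul]
      have l1 := law_pos hp.nonneg S h0
      have l2 := law_pos hp.nonneg (fun v => (S v, x v)) h0
      have l3 := law_pos hp.nonneg B h0
      have l4 := law_pos hp.nonneg (fun v => (B v, x v)) h0
      unfold rat
      field_simp) s
  refine le_trans (Pr_mono hp.nonneg fun ω hω h => ?_) h2
  show Real.exp s < rat p B x ω / rat p S x ω
  rw [lt_div_iff₀ (rat_pos hp.nonneg S x hω)]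
  exact h

/-- The conditional probabilities under a conditional law. -/
lemma rat_cond {β σ α : Type} {p : Ω → ℝ} (V : Ω → β) (S : Ω → σ) (x : Ω → α) {v : β}
    (hv : 0 < law p V v) {ω : Ω} (hω : V ω = v) :
    rat (Pool.Agent.H49.Ent.cond p V v) S x ω = rat p (fun u => (V u, S u)) x ω := by
  classical
  unfold rat
  rw [law_cond, law_cond, div_div_div_cancel_right₀ hv.ne']
  congr 1
  · unfold law
    refine Finset.sum_congr rfl fun u _ => ?_
    by_cases h : (V u = v ∧ S u = S ω) ∧ x u = x ω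
    · rw [if_pos (by simp only [Prod.mk.injEq]; exact ⟨⟨h.1.2, h.2⟩, h.1.1⟩),
        if_pos (by simp only [Prod.mk.injEq, hω]; exact h)]
    · rw [if_neg (by simp only [Prod.mk.injEq]; exact fun g => h ⟨⟨g.2, g.1.1⟩, g.1.2⟩),
        if_neg (by simp only [Prod.mk.injEq, hω]; exact h)]
  · unfold law
    refine Finset.sum_congr rfl fun u _ => ?_
    by_cases h : V u = v ∧ S u = S ω
    · rw [if_pos (by simp only [Prod.mk.injEq]; exact ⟨h.2, h.1⟩),
        if_pos (by simp only [Prod.mk.injEq, hω]; exact h)]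
    · rw [if_neg (by simp only [Prod.mk.injEq]; exact fun g => h ⟨g.2, g.1⟩),
        if_neg (by simp only [Prod.mk.injEq, hω]; exact h)]

/-- The probability of an event is the mean of its conditional probabilities. -/
lemma Pr_le_cond {β : Type} {p : Ω → ℝ} (hp : IsLaw p) (V : Ω → β) (E : Set Ω) (c : ℝ)
    (h : ∀ v, 0 < law p V v → Pr (Pool.Agent.H49.Ent.cond p V v) E ≤ c) : Pr p E ≤ c := by
  classical
  have h1 : ∀ (q : Ω → ℝ), Pr q E = Ex q (fun ω => if ω ∈ E then 1 else 0) := by
    intro q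
    rw [TI.Pr_eq]
    unfold Ex
    refine Finset.sum_congr rfl fun ω _ => ?_
    rw [mul_ite, mul_one, mul_zero]
  rw [h1, Ex_split hp.nonneg _ V]
  calc ∑ j ∈ univ.image V, law p V j * Ex (Pool.Agent.H49.Ent.cond p V j)
        (fun ω => if ω ∈ E then 1 else 0)
      ≤ ∑ j ∈ univ.image V, law p V j * c := by
        refine Finset.sum_le_sum fun j _ => ?_
        rcases (law_nonneg hp.nonneg V j).eq_or_lt with h0 | h0
        · rw [← h0, zero_mul, zero_mul]
        · rw [← h1]
          exact mul_le_mul_of_nonneg_left (h j h0) h0.le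
    _ = c := by rw [← Finset.sum_mul, sum_law, hp.sum_one, one_mul]

/-- A function of the pushed forward point. -/
lemma rat_push {Ω₀ σ α : Type} [Fintype Ω₀] {p : Ω → ℝ} {p₀ : Ω₀ → ℝ} (e : Ω → Ω₀)
    (he : ∀ f : Ω₀ → ℝ, ∑ ω, p ω * f (e ω) = ∑ ω, p₀ ω * f ω) (S : Ω₀ → σ) (x : Ω₀ → α) (ω : Ω) :
    rat p (fun v => S (e v)) (fun v => x (e v)) ω = rat p₀ S x (e ω) := by
  classical
  have h : ∀ {θ : Type} (Y : Ω₀ → θ) (t : θ), law p (fun v => Y (e v)) t = law p₀ Y t := by
    intro θ Y t
    have h1 := he (fun ω => if Y ω = t then 1 else 0)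
    unfold law
    simpa using h1
  unfold rat
  rw [h S (S (e ω)), h (fun v => (S v, x v)) (S (e ω), x (e ω))]

lemma Pr_push {Ω₀ : Type} [Fintype Ω₀] {p : Ω → ℝ} {p₀ : Ω₀ → ℝ} (e : Ω → Ω₀)
    (he : ∀ f : Ω₀ → ℝ, ∑ ω, p ω * f (e ω) = ∑ ω, p₀ ω * f ω) (E : Set Ω₀) :
    Pr p₀ E = Pr p {ω | e ω ∈ E} := by
  classical
  have h1 := he (fun ω => if ω ∈ E then 1 else 0)
  rw [TI.Pr_eq, TI.Pr_eq]
  simpa using h1.symm

/-- **The transfer.** The certificates of the members of the clusters at good macro values give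
certificates along the path at the places. -/
theorem shc_thm {Ω₀ β γ δ ι α : Type} [Fintype Ω₀] [Fintype ι] [Nonempty ι] {p : Ω → ℝ}
    {p₀ : Ω₀ → ℝ} (hp : IsLaw p) (e : ι → Ω → Ω₀)
    (he : ∀ i (f : Ω₀ → ℝ), ∑ ω, p ω * f (e i ω) = ∑ ω, p₀ ω * f ω) (V : Ω → β) (B : Ω₀ → γ)
    (hB : ∀ i, Det p V (fun ω => B (e i ω))) (x : Ω₀ → α) (y : Ω₀ → δ) {M : ℕ} (hM : 0 < M)
    (f : Ω₀ → Fin M) (hxy : ∀ ω ω', y ω = y ω' → f ω = f ω' → x ω = x ω') (G : Set β)
    (thin : β → ι → Prop) (T : Set Ω₀) {C e₀ e₁ p₄ s : ℝ} (s' : ℝ) (hs : 0 < s) (hC : 0 ≤ C)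
    (hp₄ : 0 ≤ p₄)
    (hG : Pr p {ω | V ω ∉ G} ≤ e₀)
    (hT : ∀ i, Pr p {ω | e i ω ∈ T ∧ ¬ thin (V ω) i} ≤ e₁)
    (hcert : ∀ v ∈ G, 0 < law p V v → wt (unif ι) (fun i => thin v i ∧
      CH (Pool.Agent.H49.Ent.cond p V v) (fun ω => x (e i ω)) (fun ω => (y (e i ω), ())) <
        Real.log M - C) ≤ p₄) :
    Pr p₀ {ω | ω ∈ T ∧ Real.exp (s + s') / M < rat p₀ (fun v => (B v, y v)) x ω} ≤
      e₀ + e₁ + p₄ + (C + 1) / s + Real.exp (-s') := by
  classical
  have hM0 : (0 : ℝ) < M := by exact_mod_cast hM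
  have hcard : (0 : ℝ) < Fintype.card ι := by exact_mod_cast Fintype.card_pos
  -- the events for the member `i`
  set A4 : ι → Set Ω := fun i => {ω | V ω ∈ G ∧ thin (V ω) i ∧
    CH (Pool.Agent.H49.Ent.cond p V (V ω)) (fun ω => x (e i ω)) (fun ω => (y (e i ω), ())) <
      Real.log M - C} with hA4
  set A5 : ι → Set Ω := fun i => {ω | ¬ CH (Pool.Agent.H49.Ent.cond p V (V ω))
      (fun ω => x (e i ω)) (fun ω => (y (e i ω), ())) < Real.log M - C ∧
      Real.exp s / M < rat p (fun ω => (V ω, y (e i ω))) (fun ω => x (e i ω)) ω} with hA5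
  set A6 : ι → Set Ω := fun i => {ω | Real.exp s' * rat p (fun ω => (V ω, y (e i ω)))
      (fun ω => x (e i ω)) ω < rat p (fun ω => (B (e i ω), y (e i ω)))
        (fun ω => x (e i ω)) ω} with hA6
  have hone : ∀ i, Pr p₀ {ω | ω ∈ T ∧
      Real.exp (s + s') / M < rat p₀ (fun v => (B v, y v)) x ω} ≤
      e₀ + e₁ + Pr p (A4 i) + Pr p (A5 i) + Real.exp (-s') := by
    intro i
    rw [Pr_push (e i) (he i)]
    have h6 : Pr p (A6 i) ≤ Real.exp (-s') := by
      refine rm_extra hp (fun ω => (V ω, y (e i ω))) (fun ω => (B (e i ω), y (e i ω)))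
        (fun ω => x (e i ω)) ?_ s'
      intro ω ω' h h' hh
      simp only [Prod.mk.injEq] at hh ⊢
      exact ⟨hB i ω ω' h h' hh.1, hh.2⟩
    have hsub : ∀ ω, 0 < p ω → ω ∈ {ω | e i ω ∈ {ω | ω ∈ T ∧
        Real.exp (s + s') / M < rat p₀ (fun v => (B v, y v)) x ω}} →
        ω ∈ ((({ω | V ω ∉ G} ∪ {ω | e i ω ∈ T ∧ ¬ thin (V ω) i}) ∪ A4 i) ∪ A5 i) ∪ A6 i := by
      intro ω _ hω
      obtain ⟨h1, h2⟩ := hω
      by_contra hc
      simp only [Set.mem_union, not_or] at hc
      obtain ⟨⟨⟨⟨c1, c2⟩, c3⟩, c4⟩, c5⟩ := hc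
      have c1' : V ω ∈ G := not_not.1 c1
      have c2' : thin (V ω) i := by
        by_contra h3
        exact c2 ⟨h1, h3⟩
      have c3' : ¬ CH (Pool.Agent.H49.Ent.cond p V (V ω)) (fun ω => x (e i ω))
          (fun ω => (y (e i ω), ())) < Real.log M - C := fun h3 => c3 ⟨c1', c2', h3⟩
      have c4' : rat p (fun ω => (V ω, y (e i ω))) (fun ω => x (e i ω)) ω ≤ Real.exp s / M := by
        by_contra h3
        exact c4 ⟨c3', not_le.1 h3⟩
      have c5' : rat p (fun ω => (B (e i ω), y (e i ω))) (fun ω => x (e i ω)) ω ≤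
          Real.exp s' * rat p (fun ω => (V ω, y (e i ω))) (fun ω => x (e i ω)) ω := by
        by_contra h3
        exact c5 (not_le.1 h3)
      have h4 := rat_push (e i) (he i) (fun v => (B v, y v)) x ω
      rw [← h4] at h2
      have h5 : Real.exp (s + s') / M = Real.exp s' * (Real.exp s / M) := by
        rw [Real.exp_add]
        ring
      rw [h5] at h2
      have h6 := mul_le_mul_of_nonneg_left c4' (Real.exp_pos s').le
      linarith
    refine (Pr_mono hp.nonneg hsub).trans ?_
    have u1 := Pr_union_le hp.nonneg (((({ω | V ω ∉ G} ∪ {ω | e i ω ∈ T ∧ ¬ thin (V ω) i}) ∪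
      A4 i) ∪ A5 i)) (A6 i)
    have u2 := Pr_union_le hp.nonneg ((({ω | V ω ∉ G} ∪ {ω | e i ω ∈ T ∧ ¬ thin (V ω) i}) ∪
      A4 i)) (A5 i)
    have u3 := Pr_union_le hp.nonneg ({ω | V ω ∉ G} ∪ {ω | e i ω ∈ T ∧ ¬ thin (V ω) i}) (A4 i)
    have u4 := Pr_union_le hp.nonneg {ω | V ω ∉ G} {ω | e i ω ∈ T ∧ ¬ thin (V ω) i}
    have u5 := hT i
    linarith
  -- the certificates which fail
  have h4 : ∑ i, Pr p (A4 i) ≤ Fintype.card ι * p₄ := by
    have h7 : ∑ i, Pr p (A4 i) = ∑ ω, p ω * ∑ i, (if ω ∈ A4 i then 1 else 0) := by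
      have h8 : ∀ i, Pr p (A4 i) = ∑ ω, p ω * (if ω ∈ A4 i then 1 else 0) := by
        intro i
        rw [TI.Pr_eq]
        refine Finset.sum_congr rfl fun ω _ => ?_
        rw [mul_ite, mul_one, mul_zero]
      rw [Finset.sum_congr rfl fun i _ => h8 i, Finset.sum_comm]
      refine Finset.sum_congr rfl fun ω _ => ?_
      rw [Finset.mul_sum]
    rw [h7]
    calc ∑ ω, p ω * ∑ i, (if ω ∈ A4 i then (1 : ℝ) else 0)
        ≤ ∑ ω, p ω * (Fintype.card ι * p₄) := by
          refine Finset.sum_le_sum fun ω _ => ?_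
          rcases (hp.nonneg ω).eq_or_lt with h0 | h0
          · rw [← h0, zero_mul, zero_mul]
          refine mul_le_mul_of_nonneg_left ?_ h0.le
          by_cases hg : V ω ∈ G
          · have h9 := hcert (V ω) hg (law_pos hp.nonneg V h0)
            have h10 : ∑ i, (if ω ∈ A4 i then (1 : ℝ) else 0) = Fintype.card ι *
                wt (unif ι) (fun i => thin (V ω) i ∧ CH (Pool.Agent.H49.Ent.cond p V (V ω))
                  (fun ω => x (e i ω)) (fun ω => (y (e i ω), ())) < Real.log M - C) := by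
              unfold wt
              rw [Finset.mul_sum]
              refine Finset.sum_congr rfl fun i _ => ?_
              unfold unif
              by_cases hi : ω ∈ A4 i
              · rw [if_pos hi, ind_pos hi.2, mul_one_div_cancel hcard.ne']
              · rw [if_neg hi, ind_neg (fun h => hi ⟨hg, h⟩), mul_zero]
            rw [h10]
            exact mul_le_mul_of_nonneg_left h9 hcard.le
          · have h10 : ∑ i, (if ω ∈ A4 i then (1 : ℝ) else 0) = 0 := by
              refine Finset.sum_eq_zero fun i _ => ?_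
              rw [if_neg (fun h => hg h.1)]
            rw [h10]
            positivity
      _ = Fintype.card ι * p₄ := by rw [← Finset.sum_mul, hp.sum_one, one_mul]
  have h5 : ∀ i, Pr p (A5 i) ≤ (C + 1) / s := by
    intro i
    refine Pr_le_cond hp V _ _ fun v hv => ?_
    have hql : IsLaw (Pool.Agent.H49.Ent.cond p V v) := cond_law hp V hv
    by_cases hc : CH (Pool.Agent.H49.Ent.cond p V v) (fun ω => x (e i ω))
        (fun ω => (y (e i ω), ())) < Real.log M - C
    · have h7 : Pr (Pool.Agent.H49.Ent.cond p V v) (A5 i) ≤ 0 := by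
        rw [TI.Pr_eq]
        refine le_of_eq (Finset.sum_eq_zero fun ω _ => ?_)
        by_cases hω : ω ∈ A5 i
        · rw [if_pos hω]
          unfold Pool.Agent.H49.Ent.cond
          by_cases hvω : V ω = v
          · exfalso
            have h8 := hω.1
            rw [hvω] at h8
            exact h8 hc
          · rw [if_neg hvω]
        · rw [if_neg hω]
      have h8 : 0 ≤ (C + 1) / s := by positivity
      linarith
    · have h7 := path_of_ent hql (fun ω => (y (e i ω), ())) (fun ω => x (e i ω)) hM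
        (fun ω => f (e i ω)) (fun ω ω' _ _ h1 h2 => by
          simp only [Prod.mk.injEq] at h1
          exact hxy _ _ h1.1 h2) hs (not_lt.1 hc)
      refine le_trans (Pr_mono hql.nonneg fun ω hω hω5 => ?_) h7
      have hvω : V ω = v := by
        by_contra h8
        unfold Pool.Agent.H49.Ent.cond at hω
        rw [if_neg h8] at hω
        exact lt_irrefl _ hω
      show Real.exp s / M < rat (Pool.Agent.H49.Ent.cond p V v) (fun ω => (y (e i ω), ()))
        (fun ω => x (e i ω)) ω
      have h8 : rat (Pool.Agent.H49.Ent.cond p V v) (fun ω => (y (e i ω), ()))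
          (fun ω => x (e i ω)) ω = rat p (fun ω => (V ω, y (e i ω))) (fun ω => x (e i ω)) ω := by
        rw [rat_cond V _ _ hv hvω]
        unfold rat law
        simp only [Prod.mk.injEq, and_true]
      rw [h8]
      exact hω5.2
  have h6 : (Fintype.card ι : ℝ) * Pr p₀ {ω | ω ∈ T ∧
      Real.exp (s + s') / M < rat p₀ (fun v => (B v, y v)) x ω} ≤
      Fintype.card ι * (e₀ + e₁ + p₄ + (C + 1) / s + Real.exp (-s')) := by
    have h7 := Finset.sum_le_sum fun i (_ : i ∈ (univ : Finset ι)) => hone i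
    simp only [Finset.sum_add_distrib, Finset.sum_const, card_univ, nsmul_eq_mul] at h7
    have h8 := Finset.sum_le_sum fun i (_ : i ∈ (univ : Finset ι)) => h5 i
    simp only [Finset.sum_const, card_univ, nsmul_eq_mul] at h8
    linarith
  exact le_of_mul_le_mul_left h6 hcard

end

end Pool.KX
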