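import Pool.Agent.H55.K2.SYM

/-!
# Short separation

Two bases `a`, `b` outside a class `C` of times, and three times of the class: if the
displacements `(τ t - τ a) * (g t - g a)` of the partners of one base never differ by a number in
`(ε, 1]`, a quadratic polynomial is small at three points, and the bases are in the class.
-/

set_option autoImplicit false

namespace Pool.KX

open Finset Real

section Short

/-- Three points and a quadratic polynomial. -/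
lemma quad3 {A x y a b t₁ t₂ t₃ e r : ℝ} (hr : 0 ≤ r) (ha : 0 ≤ a ∧ a ≤ 1)
    (h1 : 0 ≤ t₁ ∧ t₁ ≤ 1) (h2 : 0 ≤ t₂ ∧ t₂ ≤ 1) (h3 : 0 ≤ t₃ ∧ t₃ ≤ 1)
    (h12 : r ≤ |t₁ - t₂|) (h13 : r ≤ |t₁ - t₃|) (h23 : r ≤ |t₂ - t₃|) (hab : r ≤ |a - b|)
    (e1 : |A * (t₁ - a) * (t₁ - b) + x * (t₁ - b) - y * (t₁ - a)| ≤ e)
    (e2 : |A * (t₂ - a) * (t₂ - b) + x * (t₂ - b) - y * (t₂ - a)| ≤ e)
    (e3 : |A * (t₃ - a) * (t₃ - b) + x * (t₃ - b) - y * (t₃ - a)| ≤ e) :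
    |x| * r ^ 4 ≤ 3 * e := by
  have key : x * ((a - b) * (t₁ - t₂) * (t₁ - t₃) * (t₂ - t₃)) =
      (A * (t₁ - a) * (t₁ - b) + x * (t₁ - b) - y * (t₁ - a)) *
        ((a - t₂) * (a - t₃) * (t₂ - t₃)) -
      (A * (t₂ - a) * (t₂ - b) + x * (t₂ - b) - y * (t₂ - a)) *
        ((a - t₁) * (a - t₃) * (t₁ - t₃)) +
      (A * (t₃ - a) * (t₃ - b) + x * (t₃ - b) - y * (t₃ - a)) *
        ((a - t₁) * (a - t₂) * (t₁ - t₂)) := by ring
  have he : 0 ≤ e := (abs_nonneg _).trans e1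
  have d1 : ∀ u v : ℝ, (0 ≤ u ∧ u ≤ 1) → (0 ≤ v ∧ v ≤ 1) → |u - v| ≤ 1 := by
    intro u v hu hv
    rw [abs_le]
    constructor <;> linarith [hu.1, hu.2, hv.1, hv.2]
  have m3 : ∀ u v w : ℝ, |u| ≤ 1 → |v| ≤ 1 → |w| ≤ 1 → |u * v * w| ≤ 1 := by
    intro u v w hu hv hw
    rw [abs_mul, abs_mul]
    calc |u| * |v| * |w| ≤ 1 * 1 * 1 := by
          gcongr
      _ = 1 := by norm_num
  have b1 := m3 _ _ _ (d1 a t₂ ha h2) (d1 a t₃ ha h3) (d1 t₂ t₃ h2 h3)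
  have b2 := m3 _ _ _ (d1 a t₁ ha h1) (d1 a t₃ ha h3) (d1 t₁ t₃ h1 h3)
  have b3 := m3 _ _ _ (d1 a t₁ ha h1) (d1 a t₂ ha h2) (d1 t₁ t₂ h1 h2)
  have mm : ∀ P w : ℝ, |P| ≤ e → |w| ≤ 1 → |P * w| ≤ e := by
    intro P w hP hw
    rw [abs_mul]
    calc |P| * |w| ≤ e * 1 := by gcongr
      _ = e := mul_one e
  have hup : |x * ((a - b) * (t₁ - t₂) * (t₁ - t₃) * (t₂ - t₃))| ≤ 3 * e := by
    rw [key]
    refine (abs_add_le _ _).trans ?_
    have h4 := abs_sub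
      ((A * (t₁ - a) * (t₁ - b) + x * (t₁ - b) - y * (t₁ - a)) *
        ((a - t₂) * (a - t₃) * (t₂ - t₃)))
      ((A * (t₂ - a) * (t₂ - b) + x * (t₂ - b) - y * (t₂ - a)) *
        ((a - t₁) * (a - t₃) * (t₁ - t₃)))
    have c1 := mm _ _ e1 b1
    have c2 := mm _ _ e2 b2
    have c3 := mm _ _ e3 b3
    linarith
  have hlow : |x| * r ^ 4 ≤ |x * ((a - b) * (t₁ - t₂) * (t₁ - t₃) * (t₂ - t₃))| := by
    rw [abs_mul, abs_mul, abs_mul, abs_mul]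
    refine mul_le_mul_of_nonneg_left ?_ (abs_nonneg x)
    calc r ^ 4 = r * r * r * r := by ring
      _ ≤ |a - b| * |t₁ - t₂| * |t₁ - t₃| * |t₂ - t₃| := by gcongr
  linarith

variable {Θ : Type} [Fintype Θ]

/-- The displacement of the partner `t` at the base `a`. -/
def dsp (τ g : Θ → ℝ) (a t : Θ) : ℝ := (τ t - τ a) * (g t - g a)

lemma wt_exists {μ : Θ → ℝ} {A : Θ → Prop} (h : 0 < wt μ A) : ∃ x, A x := by
  by_contra hno
  push Not at hno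
  have h1 : wt μ A = 0 := Finset.sum_eq_zero fun x _ => ind_neg (hno x) _
  linarith

/-- Markov's inequality. -/
lemma wt_markov {μ : Θ → ℝ} (hμ : ∀ x, 0 ≤ μ x) (A : Θ → Prop) (F : Θ → ℝ)
    (hF : ∀ x, 0 ≤ F x) (θ : ℝ) :
    wt μ (fun x => A x ∧ θ < F x) * θ ≤ ∑ x, μ x * F x := by
  unfold wt
  rw [Finset.sum_mul]
  refine Finset.sum_le_sum fun x _ => ?_
  by_cases h : A x ∧ θ < F x
  · rw [ind_pos h]
    exact mul_le_mul_of_nonneg_left h.2.le (hμ x)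
  · rw [ind_neg h, zero_mul]
    exact mul_nonneg (hμ x) (hF x)

/-- Removing a set. -/
lemma wt_diff {μ : Θ → ℝ} (hμ : ∀ x, 0 ≤ μ x) (A A' : Θ → Prop) :
    wt μ A - wt μ A' ≤ wt μ (fun x => A x ∧ ¬ A' x) := by
  have h1 : wt μ A ≤ wt μ (fun x => (A x ∧ ¬ A' x) ∨ A' x) :=
    wt_mono hμ fun x hx => by
      by_cases h : A' x
      · exact Or.inr h
      · exact Or.inl ⟨hx, h⟩
  have h2 := wt_or hμ (fun x => A x ∧ ¬ A' x) A'
  linarith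

/-- Pigeonhole for the mass. -/
lemma wt_pigeon {μ : Θ → ℝ} (hμ : ∀ x, 0 ≤ μ x) {Λ : Type} [DecidableEq Λ] (A : Θ → Prop)
    (lab : Θ → Λ) (F : Finset Λ) (hF : ∀ x, A x → lab x ∈ F) (n : ℝ) (hn : 0 < n)
    (hcard : (F.card : ℝ) ≤ n) (hpos : 0 < wt μ A) :
    ∃ l, wt μ A / n ≤ wt μ (fun x => A x ∧ lab x = l) := by
  by_contra hno
  push Not at hno
  have h1 : wt μ A ≤ ∑ l ∈ F, wt μ (fun x => A x ∧ lab x = l) := by
    unfold wt
    rw [Finset.sum_comm]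
    refine Finset.sum_le_sum fun x _ => ?_
    by_cases hx : A x
    · rw [ind_pos hx]
      have h2 : ind (A x ∧ lab x = lab x) (μ x) ≤
          ∑ l ∈ F, ind (A x ∧ lab x = l) (μ x) :=
        Finset.single_le_sum (f := fun l => ind (A x ∧ lab x = l) (μ x))
          (fun l _ => ind_nonneg _ (hμ x)) (hF x hx)
      rw [ind_pos ⟨hx, rfl⟩] at h2
      exact h2
    · rw [ind_neg hx]
      exact Finset.sum_nonneg fun l _ => ind_nonneg _ (hμ x)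
  have hne : F.Nonempty := by
    obtain ⟨x, hx⟩ := wt_exists hpos
    exact ⟨lab x, hF x hx⟩
  have h2 : ∑ l ∈ F, wt μ (fun x => A x ∧ lab x = l) < ∑ _l ∈ F, wt μ A / n :=
    Finset.sum_lt_sum_of_nonempty hne fun l _ => hno l
  rw [Finset.sum_const, nsmul_eq_mul] at h2
  have h3 : (F.card : ℝ) * (wt μ A / n) ≤ n * (wt μ A / n) :=
    mul_le_mul_of_nonneg_right hcard (div_nonneg hpos.le hn.le)
  have h4 : n * (wt μ A / n) = wt μ A := by field_simp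
  linarith

/-- **Short separation, general form.** `C` is a set of partners and `D` a set of bases, with
`1 ≤ |g t - g a| ≤ B` for `t` in `C` and `a` in `D`. The displacements of two partners of one base
differ by a number in `(ε, 1]` with positive probability. -/
theorem sho2_thm {μ : Θ → ℝ} (hμ : ∀ x, 0 ≤ μ x) (τ g : Θ → ℝ) (C D : Θ → Prop)
    (B ε r p₀ p₄ κ p : ℝ) (N : ℕ) (hτ : ∀ t, 0 ≤ τ t ∧ τ t ≤ 1) (hr : 0 < r)
    (hconc : ∀ c, wt μ (fun t => |τ t - c| < r) ≤ κ) 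
    (hCD : ∀ a, D a → ∀ t, C t → 1 ≤ |g t - g a| ∧ |g t - g a| ≤ B) (hB : B + 1 ≤ N) (hp₀ : 0 < p₀)
    (hp₄ : 0 < p₄) (hCm : p₀ ≤ wt μ C) (hDm : p₄ ≤ wt μ D)
    (hgap : ∑ a, μ a * wt2 μ (fun t t' => D a ∧ C t ∧ C t' ∧
      ε < |dsp τ g a t - dsp τ g a t'| ∧ |dsp τ g a t - dsp τ g a t'| ≤ 1) ≤ p)
    (hκ : 8 * κ * (4 * N ^ 2) ≤ p₀) (hκ' : 2 * κ < p₄)
    (hp : 64 * p * (4 * (N : ℝ) ^ 2) ^ 2 ≤ p₄ * p₀ ^ 2) (hε : 6 * ε < r ^ 5) : False := by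
  classical
  have hκ0 : 0 ≤ κ := (wt_nonneg hμ _).trans (hconc 0)
  have hB2 : 1 ≤ B := by
    obtain ⟨a, ha⟩ := wt_exists (lt_of_lt_of_le hp₄ hDm)
    obtain ⟨t, ht⟩ := wt_exists (lt_of_lt_of_le hp₀ hCm)
    exact (hCD a ha t ht).1.trans (hCD a ha t ht).2
  have hN0 : (0 : ℝ) < N := by linarith
  set n : ℝ := 4 * (N : ℝ) ^ 2 with hn
  have hn0 : 0 < n := by positivity
  set q₀ : ℝ := p₀ / n with hq
  have hq0 : 0 < q₀ := div_pos hp₀ hn0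
  have hκq : 8 * κ ≤ q₀ := by
    rw [hq, le_div_iff₀ hn0]
    exact hκ
  set θ : ℝ := q₀ ^ 2 / 32 with hθ
  have hθ0 : 0 < θ := by positivity
  have hpθ : 2 * p ≤ p₄ * θ := by
    have h1 : p₄ * θ = p₄ * p₀ ^ 2 / (32 * n ^ 2) := by
      rw [hθ, hq, div_pow]
      field_simp
    rw [h1, le_div_iff₀ (by positivity)]
    linarith
  -- the gap for one base
  set G : Θ → Θ → Θ → Prop := fun a t t' => C t ∧ C t' ∧
      ε < |dsp τ g a t - dsp τ g a t'| ∧ |dsp τ g a t - dsp τ g a t'| ≤ 1 with hG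
  set F : Θ → ℝ := fun a => wt2 μ (fun t t' => D a ∧ G a t t') with hF
  have hF0 : ∀ a, 0 ≤ F a := fun a => wt2_nonneg hμ _
  have hmark := wt_markov hμ D F hF0 θ
  have h1 : wt μ (fun a => D a ∧ θ < F a) * θ ≤ p := hmark.trans hgap
  have h2 : wt μ (fun a => D a ∧ θ < F a) ≤ p₄ / 2 := by
    by_contra hcon
    push Not at hcon
    have h3 : p₄ / 2 * θ < wt μ (fun a => D a ∧ θ < F a) * θ :=
      mul_lt_mul_of_pos_right hcon hθ0
    linarith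
  have h3 : p₄ / 2 ≤ wt μ (fun a => D a ∧ F a ≤ θ) := by
    have h4 := wt_diff hμ D (fun a => D a ∧ θ < F a)
    have h5 : wt μ (fun x => D x ∧ ¬ (D x ∧ θ < F x)) ≤ wt μ (fun a => D a ∧ F a ≤ θ) :=
      wt_mono hμ fun x hx => ⟨hx.1, by
        by_contra hcon
        push Not at hcon
        exact hx.2 ⟨hx.1, hcon⟩⟩
    linarith
  -- two bases
  obtain ⟨a, haD, haF⟩ := wt_exists (lt_of_lt_of_le (by positivity : (0 : ℝ) < p₄ / 2) h3)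
  have h4 : 0 < wt μ (fun b => (D b ∧ F b ≤ θ) ∧ ¬ |τ b - τ a| < r) := by
    have h5 := wt_diff hμ (fun b => D b ∧ F b ≤ θ) (fun b => |τ b - τ a| < r)
    have h6 := hconc (τ a)
    linarith
  obtain ⟨b, ⟨hbD, hbF⟩, hab⟩ := wt_exists h4
  push Not at hab
  -- a common label
  have hCpos : 0 < wt μ C := lt_of_lt_of_le hp₀ hCm
  have hV : ∀ a, D a → ∀ t, C t → ⌊dsp τ g a t⌋ ∈ Finset.Ico (-(N : ℤ)) (N : ℤ) := by
    intro a ha t ht
    have i1 : |dsp τ g a t| ≤ B := by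
      unfold dsp
      rw [abs_mul]
      have i2 : |τ t - τ a| ≤ 1 := by
        rw [abs_le]
        constructor <;> linarith [(hτ t).1, (hτ t).2, (hτ a).1, (hτ a).2]
      have i3 : |g t - g a| ≤ B := (hCD a ha t ht).2
      calc |τ t - τ a| * |g t - g a| ≤ 1 * B := by gcongr
        _ = B := one_mul _
    rw [abs_le] at i1
    rw [Finset.mem_Ico]
    constructor
    · rw [Int.le_floor]
      push_cast
      linarith [i1.1]
    · rw [Int.floor_lt]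
      push_cast
      linarith [i1.2]
  obtain ⟨l, hl⟩ := wt_pigeon hμ C (fun t => (⌊dsp τ g a t⌋, ⌊dsp τ g b t⌋))
    (Finset.Ico (-(N : ℤ)) (N : ℤ) ×ˢ Finset.Ico (-(N : ℤ)) (N : ℤ))
    (fun t ht => Finset.mem_product.mpr ⟨hV a haD t ht, hV b hbD t ht⟩) n hn0 (by
      rw [Finset.card_product, Int.card_Ico]
      have e1 : ((N : ℤ) - (-(N : ℤ))).toNat = 2 * N := by omega
      rw [e1, hn]
      push_cast
      apply le_of_eq
      ring) hCpos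
  set Q : Θ → Prop := fun t => C t ∧ (⌊dsp τ g a t⌋, ⌊dsp τ g b t⌋) = l with hQ
  have hQm : q₀ ≤ wt μ Q := by
    refine le_trans ?_ hl
    rw [hq]
    exact div_le_div_of_nonneg_right hCm hn0.le
  -- the pivot
  set F₂ : Θ → ℝ := fun t => wt μ (fun t' => Q t ∧ Q t' ∧ (G a t' t ∨ G b t' t)) with hF₂
  have hF₂0 : ∀ t, 0 ≤ F₂ t := fun t => wt_nonneg hμ _
  have h5 : ∑ t, μ t * F₂ t ≤ 2 * θ := by
    have e1 : ∑ t, μ t * F₂ t = wt2 μ (fun t' t => Q t ∧ Q t' ∧ (G a t' t ∨ G b t' t)) :=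
      (wt2_fst μ (fun t' t => Q t ∧ Q t' ∧ (G a t' t ∨ G b t' t))).symm
    rw [e1]
    have e2 : wt2 μ (fun t' t => Q t ∧ Q t' ∧ (G a t' t ∨ G b t' t)) ≤
        wt2 μ (fun t t' => (D a ∧ G a t t') ∨ (D b ∧ G b t t')) :=
      wt2_mono hμ fun x y _ _ h => by
        rcases h.2.2 with h6 | h6
        · exact Or.inl ⟨haD, h6⟩
        · exact Or.inr ⟨hbD, h6⟩
    have e3 := wt2_or hμ (fun t t' => D a ∧ G a t t') (fun t t' => D b ∧ G b t t')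
    have e4 : F a ≤ θ := haF
    have e5 : F b ≤ θ := hbF
    simp only [hF] at e4 e5
    linarith
  have h6 := wt_markov hμ Q F₂ hF₂0 (q₀ / 4)
  have h7 : wt μ (fun t => Q t ∧ q₀ / 4 < F₂ t) ≤ q₀ / 4 := by
    by_contra hcon
    push Not at hcon
    have h8 : q₀ / 4 * (q₀ / 4) < wt μ (fun t => Q t ∧ q₀ / 4 < F₂ t) * (q₀ / 4) :=
      mul_lt_mul_of_pos_right hcon (by positivity)
    have h9 : q₀ / 4 * (q₀ / 4) = 2 * θ := by
      rw [hθ]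
      ring
    linarith
  have h8 : 0 < wt μ (fun t => Q t ∧ ¬ ((Q t ∧ q₀ / 4 < F₂ t) ∨ |τ t - τ a| < r)) := by
    have i1 := wt_diff hμ Q (fun t => (Q t ∧ q₀ / 4 < F₂ t) ∨ |τ t - τ a| < r)
    have i2 := wt_or hμ (fun t => Q t ∧ q₀ / 4 < F₂ t) (fun t => |τ t - τ a| < r)
    have i3 := hconc (τ a)
    linarith
  obtain ⟨t₁, ht₁Q, ht₁⟩ := wt_exists h8
  push Not at ht₁
  have ht₁F : F₂ t₁ ≤ q₀ / 4 := ht₁.1 ht₁Q
  have ht₁a : r ≤ |τ t₁ - τ a| := ht₁.2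
  have h9 : q₀ / 4 * 3 ≤ wt μ (fun t => Q t ∧ ¬ (G a t t₁ ∨ G b t t₁)) := by
    have i1 := wt_diff hμ Q (fun t' => Q t₁ ∧ Q t' ∧ (G a t' t₁ ∨ G b t' t₁))
    have i2 : wt μ (fun x => Q x ∧ ¬ (Q t₁ ∧ Q x ∧ (G a x t₁ ∨ G b x t₁))) ≤
        wt μ (fun t => Q t ∧ ¬ (G a t t₁ ∨ G b t t₁)) :=
      wt_mono hμ fun x hx => ⟨hx.1, fun h => hx.2 ⟨ht₁Q, hx.1, h⟩⟩
    have i3 : wt μ (fun t' => Q t₁ ∧ Q t' ∧ (G a t' t₁ ∨ G b t' t₁)) ≤ q₀ / 4 := ht₁F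
    linarith
  -- the second point
  have h10 : 0 < wt μ (fun t => (Q t ∧ ¬ (G a t t₁ ∨ G b t t₁)) ∧ ¬ |τ t - τ t₁| < r) := by
    have i1 := wt_diff hμ (fun t => Q t ∧ ¬ (G a t t₁ ∨ G b t t₁)) (fun t => |τ t - τ t₁| < r)
    have i3 := hconc (τ t₁)
    linarith
  obtain ⟨t₂, ⟨ht₂Q, ht₂G⟩, ht₂⟩ := wt_exists h10
  push Not at ht₂
  have h11 : 0 < wt μ (fun t => (Q t ∧ ¬ (G a t t₁ ∨ G b t t₁)) ∧
      ¬ (|τ t - τ t₁| < r ∨ |τ t - τ t₂| < r)) := by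
    have i1 := wt_diff hμ (fun t => Q t ∧ ¬ (G a t t₁ ∨ G b t t₁))
      (fun t => |τ t - τ t₁| < r ∨ |τ t - τ t₂| < r)
    have i2 := wt_or hμ (fun t => |τ t - τ t₁| < r) (fun t => |τ t - τ t₂| < r)
    have i3 := hconc (τ t₁)
    have i4 := hconc (τ t₂)
    linarith
  obtain ⟨t₃, ⟨ht₃Q, ht₃G⟩, ht₃⟩ := wt_exists h11
  push Not at ht₃
  -- the displacements agree
  have hclose : ∀ t, Q t → ¬ (G a t t₁ ∨ G b t t₁) →
      |dsp τ g a t - dsp τ g a t₁| ≤ ε ∧ |dsp τ g b t - dsp τ g b t₁| ≤ ε := by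
    intro t hQt hGt
    push Not at hGt
    have hl1 : (⌊dsp τ g a t⌋, ⌊dsp τ g b t⌋) = (⌊dsp τ g a t₁⌋, ⌊dsp τ g b t₁⌋) :=
      hQt.2.trans ht₁Q.2.symm
    rw [Prod.mk.injEq] at hl1
    constructor
    · have j1 := Int.abs_sub_lt_one_of_floor_eq_floor hl1.1
      by_contra hcon
      push Not at hcon
      exact hGt.1 ⟨hQt.1, ht₁Q.1, hcon, j1.le⟩
    · have j1 := Int.abs_sub_lt_one_of_floor_eq_floor hl1.2
      by_contra hcon
      push Not at hcon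
      exact hGt.2 ⟨hQt.1, ht₁Q.1, hcon, j1.le⟩
  have hε0 : 0 ≤ ε := (abs_nonneg _).trans (hclose t₂ ht₂Q ht₂G).1
  have hsmall : ∀ t, |dsp τ g a t - dsp τ g a t₁| ≤ ε → |dsp τ g b t - dsp τ g b t₁| ≤ ε →
      |(g a - g b) * (τ t - τ a) * (τ t - τ b) + dsp τ g a t₁ * (τ t - τ b) -
        dsp τ g b t₁ * (τ t - τ a)| ≤ 2 * ε := by
    intro t j1 j2
    have e1 : (g a - g b) * (τ t - τ a) * (τ t - τ b) + dsp τ g a t₁ * (τ t - τ b) -
        dsp τ g b t₁ * (τ t - τ a) = -(dsp τ g a t - dsp τ g a t₁) * (τ t - τ b) +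
        (dsp τ g b t - dsp τ g b t₁) * (τ t - τ a) := by
      simp only [dsp]
      ring
    rw [e1]
    have d1 : ∀ u : Θ, |τ t - τ u| ≤ 1 := by
      intro u
      rw [abs_le]
      constructor <;> linarith [(hτ t).1, (hτ t).2, (hτ u).1, (hτ u).2]
    refine (abs_add_le _ _).trans ?_
    rw [abs_mul, abs_mul, abs_neg]
    have k1 : |dsp τ g a t - dsp τ g a t₁| * |τ t - τ b| ≤ ε * 1 := by
      gcongr
      exact d1 b
    have k2 : |dsp τ g b t - dsp τ g b t₁| * |τ t - τ a| ≤ ε * 1 := by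
      gcongr
      exact d1 a
    linarith
  have c1 := hsmall t₁ (by rw [sub_self, abs_zero]; exact hε0)
    (by rw [sub_self, abs_zero]; exact hε0)
  have c2 := hsmall t₂ (hclose t₂ ht₂Q ht₂G).1 (hclose t₂ ht₂Q ht₂G).2
  have c3 := hsmall t₃ (hclose t₃ ht₃Q ht₃G).1 (hclose t₃ ht₃Q ht₃G).2
  have hx := quad3 hr.le (hτ a) (hτ t₁) (hτ t₂) (hτ t₃) (by rw [abs_sub_comm]; exact ht₂)
    (by rw [abs_sub_comm]; exact ht₃.1) (by rw [abs_sub_comm]; exact ht₃.2)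
    (by rw [abs_sub_comm]; exact hab) c1 c2 c3
  have hout : 1 ≤ |g t₁ - g a| := (hCD a haD t₁ ht₁Q.1).1
  have hlow : r ≤ |dsp τ g a t₁| := by
    unfold dsp
    rw [abs_mul]
    calc r = r * 1 := (mul_one r).symm
      _ ≤ |τ t₁ - τ a| * |g t₁ - g a| := by gcongr
  have hfin : r * r ^ 4 ≤ 3 * (2 * ε) :=
    le_trans (mul_le_mul_of_nonneg_right hlow (by positivity)) hx
  have e5 : r * r ^ 4 = r ^ 5 := by ring
  linarith

/-- **Short separation.** `C` is a class of times and `D` a set of bases outside the class, at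
distance at most `B`. The displacements of two partners of one base differ by a number in
`(ε, 1]` with positive probability. -/
theorem sho_thm {μ : Θ → ℝ} (hμ : ∀ x, 0 ≤ μ x) (τ g : Θ → ℝ) (C D : Θ → Prop)
    (α B ε r p₀ p₄ κ p : ℝ) (N : ℕ) (hτ : ∀ t, 0 ≤ τ t ∧ τ t ≤ 1) (hr : 0 < r)
    (hconc : ∀ c, wt μ (fun t => |τ t - c| < r) ≤ κ) (hC : ∀ t, C t → |g t - α| ≤ 1)
    (hD : ∀ a, D a → 2 ≤ |g a - α| ∧ |g a - α| ≤ B) (hB : B + 2 ≤ N) (hp₀ : 0 < p₀)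
    (hp₄ : 0 < p₄) (hCm : p₀ ≤ wt μ C) (hDm : p₄ ≤ wt μ D)
    (hgap : ∑ a, μ a * wt2 μ (fun t t' => D a ∧ C t ∧ C t' ∧
      ε < |dsp τ g a t - dsp τ g a t'| ∧ |dsp τ g a t - dsp τ g a t'| ≤ 1) ≤ p)
    (hκ : 8 * κ * (4 * N ^ 2) ≤ p₀) (hκ' : 2 * κ < p₄)
    (hp : 64 * p * (4 * (N : ℝ) ^ 2) ^ 2 ≤ p₄ * p₀ ^ 2) (hε : 6 * ε < r ^ 5) : False := by
  refine sho2_thm hμ τ g C D (B + 1) ε r p₀ p₄ κ p N hτ hr hconc ?_ (by linarith) hp₀ hp₄ hCm hDm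
    hgap hκ hκ' hp hε
  intro a ha t ht
  have j1 := hD a ha
  have j2 := hC t ht
  constructor
  · have e1 : g a - α = (g t - α) - (g t - g a) := by ring
    have e2 : |g a - α| ≤ |g t - α| + |g t - g a| := by
      rw [e1]
      exact abs_sub _ _
    linarith [j1.1]
  · have e1 : g t - g a = (g t - α) - (g a - α) := by ring
    rw [e1]
    refine (abs_sub _ _).trans ?_
    linarith [j1.2]

end Short

end Pool.KX
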