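import Pool.Agent.H70.KAL.TI

/-!
# Symmetric partners

If for most triples of times `t, x, y`, `t` the midpoint of `x` and `y` and `x`, `y` close,
`|g x - g y|` is small, then `g` is nearly constant on most of the whole window of times.
-/

set_option autoImplicit false

namespace Pool.KX

open Finset Real
open Pool.Agent.H49.Ent Pool.Agent.H32.Dense Pool.STK Pool.KAL

section Chain

variable {Θ : Type} [Fintype Θ]

open Classical in
/-- The number `c` if `P` holds and `0` otherwise. -/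
noncomputable def ind (P : Prop) (c : ℝ) : ℝ := if P then c else 0

lemma ind_pos {P : Prop} (h : P) (c : ℝ) : ind P c = c := if_pos h

lemma ind_neg {P : Prop} (h : ¬ P) (c : ℝ) : ind P c = 0 := if_neg h

lemma ind_congr {P P' : Prop} (h : P ↔ P') (c : ℝ) : ind P c = ind P' c := by
  rw [propext h]

lemma ind_nonneg (P : Prop) {c : ℝ} (hc : 0 ≤ c) : 0 ≤ ind P c := by
  by_cases h : P
  · rw [ind_pos h]; exact hc
  · rw [ind_neg h]

lemma ind_mono {P P' : Prop} {c : ℝ} (hc : 0 ≤ c) (h : P → P') : ind P c ≤ ind P' c := by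
  by_cases h1 : P
  · rw [ind_pos h1, ind_pos (h h1)]
  · rw [ind_neg h1]; exact ind_nonneg P' hc

lemma ind_or {P P' : Prop} {c : ℝ} (hc : 0 ≤ c) : ind (P ∨ P') c ≤ ind P c + ind P' c := by
  by_cases h1 : P
  · rw [ind_pos (Or.inl h1), ind_pos h1]
    linarith [ind_nonneg P' hc]
  · by_cases h2 : P'
    · rw [ind_pos (Or.inr h2), ind_pos h2]
      linarith [ind_nonneg P hc]
    · rw [ind_neg (by tauto), ind_neg h1, ind_neg h2, add_zero]

/-- The mass of a set of times. -/
noncomputable def wt (μ : Θ → ℝ) (A : Θ → Prop) : ℝ := ∑ x, ind (A x) (μ x)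

/-- The mass of a set of pairs of times. -/
noncomputable def wt2 (μ : Θ → ℝ) (B : Θ → Θ → Prop) : ℝ := ∑ x, ∑ y, ind (B x y) (μ x * μ y)

lemma wt_nonneg {μ : Θ → ℝ} (hμ : ∀ x, 0 ≤ μ x) (A : Θ → Prop) : 0 ≤ wt μ A :=
  Finset.sum_nonneg fun x _ => ind_nonneg _ (hμ x)

lemma wt2_nonneg {μ : Θ → ℝ} (hμ : ∀ x, 0 ≤ μ x) (B : Θ → Θ → Prop) : 0 ≤ wt2 μ B :=
  Finset.sum_nonneg fun x _ => Finset.sum_nonneg fun y _ =>
    ind_nonneg _ (mul_nonneg (hμ x) (hμ y))

lemma wt_mono {μ : Θ → ℝ} (hμ : ∀ x, 0 ≤ μ x) {A A' : Θ → Prop} (h : ∀ x, A x → A' x) :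
    wt μ A ≤ wt μ A' :=
  Finset.sum_le_sum fun x _ => ind_mono (hμ x) (h x)

lemma wt2_mono {μ : Θ → ℝ} (hμ : ∀ x, 0 ≤ μ x) {B B' : Θ → Θ → Prop}
    (h : ∀ x y, 0 < μ x → 0 < μ y → B x y → B' x y) : wt2 μ B ≤ wt2 μ B' := by
  refine Finset.sum_le_sum fun x _ => Finset.sum_le_sum fun y _ => ?_
  by_cases hx : 0 < μ x
  · by_cases hy : 0 < μ y
    · exact ind_mono (mul_nonneg (hμ x) (hμ y)) (h x y hx hy)
    · have h0 : μ y = 0 := le_antisymm (not_lt.mp hy) (hμ y)
      rw [h0, mul_zero]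
      by_cases h1 : B x y <;> by_cases h2 : B' x y <;> simp [ind]
  · have h0 : μ x = 0 := le_antisymm (not_lt.mp hx) (hμ x)
    rw [h0, zero_mul]
    simp [ind]

lemma wt2_or {μ : Θ → ℝ} (hμ : ∀ x, 0 ≤ μ x) (B B' : Θ → Θ → Prop) :
    wt2 μ (fun x y => B x y ∨ B' x y) ≤ wt2 μ B + wt2 μ B' := by
  unfold wt2
  rw [← Finset.sum_add_distrib]
  refine Finset.sum_le_sum fun x _ => ?_
  rw [← Finset.sum_add_distrib]
  exact Finset.sum_le_sum fun y _ => ind_or (mul_nonneg (hμ x) (hμ y))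

lemma wt_or {μ : Θ → ℝ} (hμ : ∀ x, 0 ≤ μ x) (A A' : Θ → Prop) :
    wt μ (fun x => A x ∨ A' x) ≤ wt μ A + wt μ A' := by
  unfold wt
  rw [← Finset.sum_add_distrib]
  exact Finset.sum_le_sum fun x _ => ind_or (hμ x)

/-- Pairs of a product set. -/
lemma wt2_prod (μ : Θ → ℝ) (A A' : Θ → Prop) :
    wt2 μ (fun x y => A x ∧ A' y) = wt μ A * wt μ A' := by
  unfold wt2 wt
  rw [Finset.sum_mul]
  refine Finset.sum_congr rfl fun x _ => ?_
  rw [Finset.mul_sum]
  refine Finset.sum_congr rfl fun y _ => ?_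
  by_cases h1 : A x
  · by_cases h2 : A' y
    · rw [ind_pos ⟨h1, h2⟩, ind_pos h1, ind_pos h2]
    · rw [ind_neg (by tauto), ind_neg h2, mul_zero]
  · rw [ind_neg (by tauto), ind_neg h1, zero_mul]

/-- The fibres over the second coordinate. -/
lemma wt2_fst (μ : Θ → ℝ) (B : Θ → Θ → Prop) :
    wt2 μ B = ∑ y, μ y * wt μ (fun x => B x y) := by
  unfold wt2 wt
  rw [Finset.sum_comm]
  refine Finset.sum_congr rfl fun y _ => ?_
  rw [Finset.mul_sum]
  refine Finset.sum_congr rfl fun x _ => ?_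
  by_cases h1 : B x y
  · rw [ind_pos h1, ind_pos h1, mul_comm]
  · rw [ind_neg h1, ind_neg h1, mul_zero]

lemma wt2_swap (μ : Θ → ℝ) (B : Θ → Θ → Prop) :
    wt2 μ B = wt2 μ (fun x y => B y x) := by
  unfold wt2
  rw [Finset.sum_comm]
  refine Finset.sum_congr rfl fun y _ => Finset.sum_congr rfl fun x _ => ?_
  rw [mul_comm]

/-- Choice of a good second coordinate. -/
lemma wt2_choose {μ : Θ → ℝ} (hμ : ∀ x, 0 ≤ μ x) (A' : Θ → Prop) (B : Θ → Θ → Prop) (c : ℝ)
    (hA : 0 < wt μ A') (h : wt2 μ (fun x y => A' y ∧ B x y) ≤ c * wt μ A') :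
    ∃ y, A' y ∧ wt μ (fun x => B x y) ≤ c := by
  by_contra hcon
  push Not at hcon
  rw [wt2_fst] at h
  have h3 : ∀ y, A' y → wt μ (fun x => A' y ∧ B x y) = wt μ (fun x => B x y) := by
    intro y hy
    unfold wt
    refine Finset.sum_congr rfl fun x _ => ?_
    exact ind_congr ⟨fun h => h.2, fun h => ⟨hy, h⟩⟩ _
  have h1 : c * wt μ A' < ∑ y, μ y * wt μ (fun x => A' y ∧ B x y) := by
    have h2 : ∀ y, c * ind (A' y) (μ y) ≤ μ y * wt μ (fun x => A' y ∧ B x y) := by
      intro y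
      by_cases hy : A' y
      · rw [ind_pos hy, h3 y hy, mul_comm]
        exact mul_le_mul_of_nonneg_left (hcon y hy).le (hμ y)
      · rw [ind_neg hy, mul_zero]
        exact mul_nonneg (hμ y) (wt_nonneg hμ _)
    have h4 : ∃ y ∈ (univ : Finset Θ), (0 : ℝ) < ind (A' y) (μ y) := by
      by_contra hno
      push Not at hno
      have : wt μ A' ≤ 0 := Finset.sum_nonpos fun y hy => hno y hy
      linarith
    obtain ⟨y, _, hy⟩ := h4
    have hy1 : A' y := by
      by_contra hn
      rw [ind_neg hn] at hy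
      exact lt_irrefl _ hy
    rw [ind_pos hy1] at hy
    have h5 : c * wt μ A' = ∑ y, c * ind (A' y) (μ y) := by
      unfold wt
      rw [Finset.mul_sum]
    rw [h5]
    refine Finset.sum_lt_sum (fun y _ => h2 y) ⟨y, mem_univ _, ?_⟩
    rw [ind_pos hy1, h3 y hy1, mul_comm]
    exact mul_lt_mul_of_pos_left (hcon y hy1) hy
  linarith

/-- The masses of the blocks. -/
lemma wt_blocks (μ : Θ → ℝ) (blk : Θ → ℕ) (R : ℕ) (hblk : ∀ x, blk x < R) :
    ∑ l ∈ range R, wt μ (fun x => blk x = l) = ∑ x, μ x := by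
  unfold wt
  rw [Finset.sum_comm]
  refine Finset.sum_congr rfl fun x _ => ?_
  rw [Finset.sum_eq_single (blk x)]
  · exact ind_pos rfl _
  · intro l _ hl
    exact ind_neg (fun h => hl h.symm) _
  · intro h
    exact absurd (Finset.mem_range.mpr (hblk x)) h

/-- A function of the times which is nearly constant on most pairs of adjacent blocks is nearly
constant. -/
theorem chain_blocks {μ : Θ → ℝ} (hμ : ∀ x, 0 ≤ μ x) (blk : Θ → ℕ) (R : ℕ) (hR : 2 ≤ R)
    (hblk : ∀ x, blk x < R) (g : Θ → ℝ) (η κ : ℝ) (hη : 0 ≤ η) (hκ : 3 * κ < 1)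
    (hpos : ∀ l < R, 0 < wt μ (fun x => blk x = l))
    (hadj : ∀ l, l + 1 < R → wt2 μ (fun x y => blk x = l ∧ blk y = l + 1 ∧ η < |g x - g y|) ≤
      κ * (wt μ (fun x => blk x = l) * wt μ (fun x => blk x = l + 1))) :
    ∃ α : ℝ, wt μ (fun x => (3 * R + 1) * η < |g x - α|) ≤ κ * ∑ x, μ x := by
  classical
  -- a value for every block
  have key : ∀ l < R, ∃ α : ℝ, wt μ (fun x => blk x = l ∧ η < |g x - α|) ≤
      κ * wt μ (fun x => blk x = l) := by
    intro l hl
    by_cases h : l + 1 < R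
    · obtain ⟨y, _, hy⟩ := wt2_choose hμ (fun y => blk y = l + 1)
        (fun x y => blk x = l ∧ η < |g x - g y|) (κ * wt μ (fun x => blk x = l))
        (hpos _ h) (by
          have h1 := hadj l h
          rw [← mul_assoc] at h1
          refine le_trans (wt2_mono hμ ?_) h1
          intro x y _ _ hh
          exact ⟨hh.2.1, hh.1, hh.2.2⟩)
      exact ⟨g y, hy⟩
    · have hl1 : l - 1 + 1 = l := by omega
      have h0 : l - 1 + 1 < R := by omega
      obtain ⟨y, _, hy⟩ := wt2_choose hμ (fun y => blk y = l - 1)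
        (fun x y => blk x = l ∧ η < |g x - g y|) (κ * wt μ (fun x => blk x = l))
        (hpos _ (by omega)) (by
          have h1 := hadj (l - 1) h0
          rw [hl1, wt2_swap] at h1
          have h2 : κ * (wt μ (fun x => blk x = l - 1) * wt μ (fun x => blk x = l)) =
              κ * wt μ (fun x => blk x = l) * wt μ (fun x => blk x = l - 1) := by ring
          rw [h2] at h1
          refine le_trans (wt2_mono hμ ?_) h1
          intro x y _ _ hh
          refine ⟨hh.1, hh.2.1, ?_⟩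
          rw [abs_sub_comm]
          exact hh.2.2)
      exact ⟨g y, hy⟩
  choose! α hα using key
  -- adjacent blocks
  have step : ∀ l, l + 1 < R → |α (l + 1) - α l| ≤ 3 * η := by
    intro l hl
    by_contra hcon
    push Not at hcon
    have h1 : wt2 μ (fun x y => blk x = l ∧ blk y = l + 1) ≤
        wt2 μ (fun x y => (blk x = l ∧ η < |g x - α l|) ∧ blk y = l + 1) +
        (wt2 μ (fun x y => blk x = l ∧ (blk y = l + 1 ∧ η < |g y - α (l + 1)|)) +
        wt2 μ (fun x y => blk x = l ∧ blk y = l + 1 ∧ η < |g x - g y|)) := by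
      refine le_trans (wt2_mono hμ ?_) ((wt2_or hμ _ _).trans
        (add_le_add le_rfl (wt2_or hμ _ _)))
      intro x y _ _ hh
      by_cases a1 : η < |g x - α l|
      · exact Or.inl ⟨⟨hh.1, a1⟩, hh.2⟩
      · by_cases a2 : η < |g y - α (l + 1)|
        · exact Or.inr (Or.inl ⟨hh.1, hh.2, a2⟩)
        · by_cases a3 : η < |g x - g y|
          · exact Or.inr (Or.inr ⟨hh.1, hh.2, a3⟩)
          · exfalso
            push Not at a1 a2 a3
            have e1 : α (l + 1) - α l = -(g y - α (l + 1)) - (g x - g y) + (g x - α l) := by ring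
            have e2 : |α (l + 1) - α l| ≤ |g y - α (l + 1)| + |g x - g y| + |g x - α l| := by
              rw [e1]
              refine (abs_add_le _ _).trans (add_le_add ?_ le_rfl)
              refine (abs_sub _ _).trans ?_
              rw [abs_neg]
            linarith
    rw [wt2_prod μ (fun x => blk x = l) (fun y => blk y = l + 1),
      wt2_prod μ (fun x => blk x = l ∧ η < |g x - α l|) (fun y => blk y = l + 1),
      wt2_prod μ (fun x => blk x = l) (fun y => blk y = l + 1 ∧ η < |g y - α (l + 1)|)] at h1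
    have h2 := hα l (by omega)
    have h3 := hα (l + 1) hl
    have h4 := hadj l hl
    have p1 := hpos l (by omega)
    have p2 := hpos (l + 1) hl
    have h5 : wt μ (fun x => blk x = l ∧ η < |g x - α l|) * wt μ (fun y => blk y = l + 1) ≤
        κ * wt μ (fun x => blk x = l) * wt μ (fun y => blk y = l + 1) :=
      mul_le_mul_of_nonneg_right h2 p2.le
    have h6 : wt μ (fun x => blk x = l) *
        wt μ (fun y => blk y = l + 1 ∧ η < |g y - α (l + 1)|) ≤
        wt μ (fun x => blk x = l) * (κ * wt μ (fun y => blk y = l + 1)) :=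
      mul_le_mul_of_nonneg_left h3 p1.le
    have h7 := mul_pos p1 p2
    nlinarith
  -- all blocks
  have all : ∀ l < R, |α l - α 0| ≤ 3 * l * η := by
    intro l
    induction l with
    | zero => intro _; simp
    | succ l ih =>
      intro hl
      have h1 := ih (by omega)
      have h2 := step l hl
      have h3 : α (l + 1) - α 0 = (α (l + 1) - α l) + (α l - α 0) := by ring
      rw [h3]
      refine (abs_add_le _ _).trans ?_
      push_cast
      linarith
  refine ⟨α 0, ?_⟩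
  have h1 : wt μ (fun x => (3 * R + 1) * η < |g x - α 0|) ≤
      ∑ l ∈ range R, wt μ (fun x => blk x = l ∧ η < |g x - α l|) := by
    unfold wt
    rw [Finset.sum_comm]
    refine Finset.sum_le_sum fun x _ => ?_
    by_cases hx : (3 * (R : ℝ) + 1) * η < |g x - α 0|
    · rw [ind_pos hx]
      have h2 : ind (blk x = blk x ∧ η < |g x - α (blk x)|) (μ x) ≤
          ∑ l ∈ range R, ind (blk x = l ∧ η < |g x - α l|) (μ x) :=
        Finset.single_le_sum
          (f := fun l => ind (blk x = l ∧ η < |g x - α l|) (μ x))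
          (fun l _ => ind_nonneg _ (hμ x)) (Finset.mem_range.mpr (hblk x))
      refine le_trans ?_ h2
      have h3 : η < |g x - α (blk x)| := by
        by_contra hn
        push Not at hn
        have h4 := all (blk x) (hblk x)
        have h5 : (blk x : ℝ) ≤ R := by exact_mod_cast (hblk x).le
        have h6 : g x - α 0 = (g x - α (blk x)) + (α (blk x) - α 0) := by ring
        have h7 : |g x - α 0| ≤ η + 3 * (blk x) * η := by
          rw [h6]
          exact (abs_add_le _ _).trans (add_le_add hn h4)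
        have h8 : (blk x : ℝ) * η ≤ R * η := mul_le_mul_of_nonneg_right h5 hη
        nlinarith
      rw [ind_pos ⟨rfl, h3⟩]
    · rw [ind_neg hx]
      exact Finset.sum_nonneg fun l _ => ind_nonneg _ (hμ x)
  refine h1.trans ?_
  have h2 : ∑ l ∈ range R, wt μ (fun x => blk x = l ∧ η < |g x - α l|) ≤
      ∑ l ∈ range R, κ * wt μ (fun x => blk x = l) :=
    Finset.sum_le_sum fun l hl => hα l (Finset.mem_range.mp hl)
  refine h2.trans (le_of_eq ?_)
  rw [← Finset.mul_sum]
  congr 1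
  exact wt_blocks μ blk R hblk

/-- Finite additivity. -/
lemma wt_mem_le (μ : Θ → ℝ) (hμ : ∀ x, 0 ≤ μ x) (cell : Θ → ℕ) (F : Finset ℕ) (A : Θ → Prop)
    (hA : ∀ x, A x → cell x ∈ F) (c : ℝ) (hc : ∀ i ∈ F, wt μ (fun x => cell x = i) ≤ c) :
    wt μ A ≤ F.card * c := by
  have h1 : wt μ A ≤ ∑ i ∈ F, wt μ (fun x => cell x = i) := by
    unfold wt
    rw [Finset.sum_comm]
    refine Finset.sum_le_sum fun x _ => ?_
    by_cases hx : A x
    · rw [ind_pos hx]
      have h2 : ind (cell x = cell x) (μ x) ≤ ∑ i ∈ F, ind (cell x = i) (μ x) :=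
        Finset.single_le_sum (f := fun i => ind (cell x = i) (μ x))
        (fun i _ => ind_nonneg _ (hμ x)) (hA x hx)
      rw [ind_pos rfl] at h2
      exact h2
    · rw [ind_neg hx]
      exact Finset.sum_nonneg fun i _ => ind_nonneg _ (hμ x)
  refine h1.trans ?_
  have h2 := Finset.sum_le_card_nsmul F (fun i => wt μ (fun x => cell x = i)) c hc
  rwa [nsmul_eq_mul] at h2

/-- Lower bound for a set which contains all times of the cells of `F`. -/
lemma le_wt_mem (μ : Θ → ℝ) (hμ : ∀ x, 0 ≤ μ x) (cell : Θ → ℕ) (F : Finset ℕ) (A : Θ → Prop)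
    (hA : ∀ x, cell x ∈ F → A x) (c : ℝ) (hc : ∀ i ∈ F, c ≤ wt μ (fun x => cell x = i)) :
    F.card * c ≤ wt μ A := by
  have h2 := Finset.card_nsmul_le_sum F (fun i => wt μ (fun x => cell x = i)) c hc
  rw [nsmul_eq_mul] at h2
  refine h2.trans ?_
  unfold wt
  rw [Finset.sum_comm]
  refine Finset.sum_le_sum fun x _ => ?_
  by_cases hx : cell x ∈ F
  · rw [ind_pos (hA x hx), Finset.sum_eq_single (cell x)]
    · rw [ind_pos rfl]
    · intro i _ hi
      exact ind_neg (fun h => hi h.symm) _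
    · intro h
      exact absurd hx h
  · rw [Finset.sum_eq_zero]
    · exact ind_nonneg _ (hμ x)
    · intro i hi
      exact ind_neg (fun h : cell x = i => hx (by rw [h]; exact hi)) _

/-- **Symmetric partners.** The window of times is divided into `R` blocks of `ℓ` cells. If for
most triples `t, x, y` of independent times of which `t` lies in the cell of the midpoint of `x`
and `y`, and `x`, `y` are at a distance between `ℓ / D` and `2 ℓ`, the difference `|g x - g y|` is
at most `η`, then `g` is constant up to `(3 R + 1) η` outside a set of mass `κ`. -/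
theorem sym_thm {μ : Θ → ℝ} (hμ : ∀ x, 0 ≤ μ x) (hμ1 : ∑ x, μ x = 1) (cell : Θ → ℕ)
    (g : Θ → ℝ) (ℓ R D : ℕ) (η p κ : ℝ) (hℓ : 0 < ℓ) (hR : 2 ≤ R) (hD : 0 < D) (hη : 0 ≤ η)
    (hcell : ∀ x, cell x < R * ℓ)
    (hlow : ∀ i < R * ℓ, 1 / (2 * (R * ℓ)) ≤ wt μ (fun x => cell x = i))
    (hupp : ∀ i < R * ℓ, wt μ (fun x => cell x = i) ≤ 2 / (R * ℓ))
    (hp : ∑ t, μ t * wt2 μ (fun x y => cell x + cell y ≤ 2 * cell t + 1 ∧
      2 * cell t ≤ cell x + cell y ∧ cell x < cell y ∧ ℓ ≤ D * (cell y - cell x) ∧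
      cell y - cell x ≤ 2 * ℓ ∧ η < |g x - g y|) ≤ p)
    (hκ : 16 / (D : ℝ) ^ 2 + 8 * R ^ 3 * ℓ * p ≤ κ) (hκ3 : 3 * κ < 1) :
    ∃ α : ℝ, wt μ (fun x => (3 * R + 1) * η < |g x - α|) ≤ κ := by
  have hℓ0 : (0 : ℝ) < ℓ := by exact_mod_cast hℓ
  have hR0 : (0 : ℝ) < R := by
    have : 0 < R := by omega
    exact_mod_cast this
  have hD0 : (0 : ℝ) < D := by exact_mod_cast hD
  -- the blocks
  have hblk : ∀ x, cell x / ℓ < R := fun x => Nat.div_lt_of_lt_mul (by
    rw [mul_comm]; exact hcell x)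
  have hmass : ∀ l < R, 1 / (2 * (R : ℝ)) ≤ wt μ (fun x => cell x / ℓ = l) := by
    intro l hl
    have h1 := le_wt_mem μ hμ cell (Finset.Ico (l * ℓ) ((l + 1) * ℓ)) (fun x => cell x / ℓ = l)
      (by
        intro x hx
        rw [Finset.mem_Ico] at hx
        exact Nat.div_eq_of_lt_le hx.1 hx.2) (1 / (2 * (R * ℓ))) (by
        intro i hi
        rw [Finset.mem_Ico] at hi
        exact hlow i (lt_of_lt_of_le hi.2 (Nat.mul_le_mul_right ℓ hl)))
    rw [Nat.card_Ico] at h1
    have h2 : (l + 1) * ℓ - l * ℓ = ℓ := by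
      rw [Nat.add_mul, one_mul]
      omega
    rw [h2] at h1
    refine le_trans (le_of_eq ?_) h1
    field_simp
  have hpos : ∀ l < R, 0 < wt μ (fun x => cell x / ℓ = l) := fun l hl =>
    lt_of_lt_of_le (by positivity) (hmass l hl)
  -- separated pairs
  have hsep : wt2 μ (fun x y => cell x < cell y ∧ ℓ ≤ D * (cell y - cell x) ∧
      cell y - cell x ≤ 2 * ℓ ∧ η < |g x - g y|) ≤ 2 * (R * ℓ) * p := by
    set B : Θ → Θ → Prop := fun x y => cell x < cell y ∧ ℓ ≤ D * (cell y - cell x) ∧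
      cell y - cell x ≤ 2 * ℓ ∧ η < |g x - g y| with hB
    have h1 : wt2 μ B * (1 / (2 * (R * ℓ))) ≤ p := by
      refine le_trans ?_ hp
      unfold wt2
      rw [Finset.sum_mul]
      have h2 : ∑ t, μ t * ∑ x, ∑ y, ind (cell x + cell y ≤ 2 * cell t + 1 ∧
          2 * cell t ≤ cell x + cell y ∧ cell x < cell y ∧ ℓ ≤ D * (cell y - cell x) ∧
          cell y - cell x ≤ 2 * ℓ ∧ η < |g x - g y|) (μ x * μ y) =
          ∑ x, ∑ y, ∑ t, μ t * ind (cell x + cell y ≤ 2 * cell t + 1 ∧
          2 * cell t ≤ cell x + cell y ∧ cell x < cell y ∧ ℓ ≤ D * (cell y - cell x) ∧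
          cell y - cell x ≤ 2 * ℓ ∧ η < |g x - g y|) (μ x * μ y) := by
        have h3 : ∀ t, μ t * ∑ x, ∑ y, ind (cell x + cell y ≤ 2 * cell t + 1 ∧
          2 * cell t ≤ cell x + cell y ∧ cell x < cell y ∧ ℓ ≤ D * (cell y - cell x) ∧
          cell y - cell x ≤ 2 * ℓ ∧ η < |g x - g y|) (μ x * μ y) =
          ∑ x, ∑ y, μ t * ind (cell x + cell y ≤ 2 * cell t + 1 ∧
          2 * cell t ≤ cell x + cell y ∧ cell x < cell y ∧ ℓ ≤ D * (cell y - cell x) ∧
          cell y - cell x ≤ 2 * ℓ ∧ η < |g x - g y|) (μ x * μ y) := by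
          intro t
          rw [Finset.mul_sum]
          exact Finset.sum_congr rfl fun x _ => Finset.mul_sum _ _ _
        rw [Finset.sum_congr rfl fun t _ => h3 t, Finset.sum_comm]
        refine Finset.sum_congr rfl fun x _ => ?_
        rw [Finset.sum_comm]
      rw [h2]
      refine Finset.sum_le_sum fun x _ => ?_
      rw [Finset.sum_mul]
      refine Finset.sum_le_sum fun y _ => ?_
      have hxy := mul_nonneg (hμ x) (hμ y)
      by_cases hb : B x y
      · rw [ind_pos hb]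
        have hc : (cell x + cell y) / 2 < R * ℓ := by
          have a1 := hcell x
          have a2 := hcell y
          omega
        have h4 : wt μ (fun t => cell t = (cell x + cell y) / 2) * (μ x * μ y) ≤
            ∑ t, μ t * ind (cell x + cell y ≤ 2 * cell t + 1 ∧
          2 * cell t ≤ cell x + cell y ∧ cell x < cell y ∧ ℓ ≤ D * (cell y - cell x) ∧
          cell y - cell x ≤ 2 * ℓ ∧ η < |g x - g y|) (μ x * μ y) := by
          unfold wt
          rw [Finset.sum_mul]
          refine Finset.sum_le_sum fun t _ => ?_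
          by_cases ht : cell t = (cell x + cell y) / 2
          · rw [ind_pos ht, ind_pos ⟨by omega, by omega, hb⟩]
          · rw [ind_neg ht, zero_mul]
            exact mul_nonneg (hμ t) (ind_nonneg _ hxy)
        refine le_trans ?_ h4
        rw [mul_comm]
        exact mul_le_mul_of_nonneg_right (hlow _ hc) hxy
      · rw [ind_neg hb, zero_mul]
        exact Finset.sum_nonneg fun t _ => mul_nonneg (hμ t) (ind_nonneg _ hxy)
    have h5 : wt2 μ B = 2 * (R * ℓ) * (wt2 μ B * (1 / (2 * (R * ℓ)))) := by field_simp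
    rw [h5]
    exact mul_le_mul_of_nonneg_left h1 (by positivity)
  have hp0 : 0 ≤ p := by
    refine le_trans ?_ hp
    exact Finset.sum_nonneg fun t _ => mul_nonneg (hμ t) (wt2_nonneg hμ _)
  have hadj : ∀ l, l + 1 < R →
      wt2 μ (fun x y => cell x / ℓ = l ∧ cell y / ℓ = l + 1 ∧ η < |g x - g y|) ≤
      κ * (wt μ (fun x => cell x / ℓ = l) * wt μ (fun x => cell x / ℓ = l + 1)) := by
    intro l hl
    have h1 : wt2 μ (fun x y => cell x / ℓ = l ∧ cell y / ℓ = l + 1 ∧ η < |g x - g y|) ≤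
        wt2 μ (fun x y => (cell x < (l + 1) * ℓ ∧ D * ((l + 1) * ℓ - cell x) < ℓ) ∧
          ((l + 1) * ℓ ≤ cell y ∧ D * (cell y + 1 - (l + 1) * ℓ) < ℓ)) +
        wt2 μ (fun x y => cell x < cell y ∧ ℓ ≤ D * (cell y - cell x) ∧
          cell y - cell x ≤ 2 * ℓ ∧ η < |g x - g y|) := by
      refine le_trans (wt2_mono hμ ?_) (wt2_or hμ _ _)
      intro x y _ _ hh
      obtain ⟨hx, hy, hg⟩ := hh
      have a1 : cell x < (l + 1) * ℓ := (Nat.div_lt_iff_lt_mul hℓ).mp (by omega)
      have a2 : l * ℓ ≤ cell x := (Nat.le_div_iff_mul_le hℓ).mp (by omega)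
      have a3 : cell y < (l + 2) * ℓ := (Nat.div_lt_iff_lt_mul hℓ).mp (by omega)
      have a4 : (l + 1) * ℓ ≤ cell y := (Nat.le_div_iff_mul_le hℓ).mp (by omega)
      have e1 : (l + 1) * ℓ = l * ℓ + ℓ := by ring
      have e2 : (l + 2) * ℓ = l * ℓ + 2 * ℓ := by ring
      by_cases hd : D * (cell y - cell x) < ℓ
      · refine Or.inl ⟨⟨a1, lt_of_le_of_lt (Nat.mul_le_mul_left D ?_) hd⟩,
          ⟨a4, lt_of_le_of_lt (Nat.mul_le_mul_left D ?_) hd⟩⟩
        · omega
        · omega
      · refine Or.inr ⟨by omega, by omega, by omega, hg⟩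
    rw [wt2_prod μ (fun x => cell x < (l + 1) * ℓ ∧ D * ((l + 1) * ℓ - cell x) < ℓ)
      (fun y => (l + 1) * ℓ ≤ cell y ∧ D * (cell y + 1 - (l + 1) * ℓ) < ℓ)] at h1
    have hcard : ((((ℓ - 1) / D : ℕ)) : ℝ) ≤ ℓ / D := by
      refine (Nat.cast_div_le).trans ?_
      exact div_le_div_of_nonneg_right (by exact_mod_cast Nat.sub_le ℓ 1) hD0.le
    have hjD : ∀ j : ℕ, D * j < ℓ → j ≤ (ℓ - 1) / D := by
      intro j hj
      rw [Nat.le_div_iff_mul_le hD, mul_comm]
      omega
    have hq : (((ℓ - 1) / D : ℕ)) ≤ ℓ - 1 := Nat.div_le_self _ _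
    generalize (ℓ - 1) / D = q at hcard hjD hq
    have e1 : (l + 1) * ℓ = l * ℓ + ℓ := by ring
    have e2 : (l + 2) * ℓ = l * ℓ + 2 * ℓ := by ring
    have hl2 : (l + 2) * ℓ ≤ R * ℓ := Nat.mul_le_mul_right ℓ (by omega)
    have h2 : wt μ (fun x => cell x < (l + 1) * ℓ ∧ D * ((l + 1) * ℓ - cell x) < ℓ) ≤
        2 / (R * D) := by
      have h3 := wt_mem_le μ hμ cell
        (Finset.Ico ((l + 1) * ℓ - q) ((l + 1) * ℓ))
        (fun x => cell x < (l + 1) * ℓ ∧ D * ((l + 1) * ℓ - cell x) < ℓ) (by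
          intro x hx
          rw [Finset.mem_Ico]
          have h4 := hjD _ hx.2
          omega) (2 / (R * ℓ)) (by
          intro i hi
          rw [Finset.mem_Ico] at hi
          exact hupp i (by omega))
      rw [Nat.card_Ico] at h3
      have h4 : (l + 1) * ℓ - ((l + 1) * ℓ - q) = q := by omega
      rw [h4] at h3
      refine h3.trans ((mul_le_mul_of_nonneg_right hcard (by positivity)).trans
        (le_of_eq ?_))
      field_simp
    have h3 : wt μ (fun y => (l + 1) * ℓ ≤ cell y ∧ D * (cell y + 1 - (l + 1) * ℓ) < ℓ) ≤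
        2 / (R * D) := by
      have h3 := wt_mem_le μ hμ cell
        (Finset.Ico ((l + 1) * ℓ) ((l + 1) * ℓ + q))
        (fun y => (l + 1) * ℓ ≤ cell y ∧ D * (cell y + 1 - (l + 1) * ℓ) < ℓ) (by
          intro x hx
          rw [Finset.mem_Ico]
          have h4 := hjD _ hx.2
          omega) (2 / (R * ℓ)) (by
          intro i hi
          rw [Finset.mem_Ico] at hi
          exact hupp i (by omega))
      rw [Nat.card_Ico] at h3
      have h4 : (l + 1) * ℓ + q - (l + 1) * ℓ = q := by omega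
      rw [h4] at h3
      refine h3.trans ((mul_le_mul_of_nonneg_right hcard (by positivity)).trans
        (le_of_eq ?_))
      field_simp
    have h4 : wt μ (fun x => cell x < (l + 1) * ℓ ∧ D * ((l + 1) * ℓ - cell x) < ℓ) *
        wt μ (fun y => (l + 1) * ℓ ≤ cell y ∧ D * (cell y + 1 - (l + 1) * ℓ) < ℓ) ≤
        2 / (R * D) * (2 / (R * D)) :=
      mul_le_mul h2 h3 (wt_nonneg hμ _) (by positivity)
    have m1 := hmass l (by omega)
    have m2 := hmass (l + 1) hl
    have h5 : 1 / (2 * (R : ℝ)) * (1 / (2 * R)) ≤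
        wt μ (fun x => cell x / ℓ = l) * wt μ (fun x => cell x / ℓ = l + 1) :=
      mul_le_mul m1 m2 (by positivity) (hpos l (by omega)).le
    have hκ0 : 0 ≤ κ := le_trans (by positivity) hκ
    have h6 := mul_le_mul_of_nonneg_left h5 hκ0
    have h7 : (16 / (D : ℝ) ^ 2 + 8 * R ^ 3 * ℓ * p) * (1 / (2 * (R : ℝ)) * (1 / (2 * R))) ≤
        κ * (1 / (2 * (R : ℝ)) * (1 / (2 * R))) :=
      mul_le_mul_of_nonneg_right hκ (by positivity)
    have h8 : (16 / (D : ℝ) ^ 2 + 8 * R ^ 3 * ℓ * p) * (1 / (2 * (R : ℝ)) * (1 / (2 * R))) =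
        2 / (R * D) * (2 / (R * D)) + 2 * (R * ℓ) * p := by
      field_simp
      ring
    linarith
  obtain ⟨α, hα⟩ := chain_blocks hμ (fun x => cell x / ℓ) R hR hblk g η κ hη hκ3 hpos hadj
  rw [hμ1, mul_one] at hα
  exact ⟨α, hα⟩

end Chain

end Pool.KX
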